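import Mathlib

/-!
# The number of solutions of `αβ + γδ = h` in a box
-/

set_option autoImplicit false
set_option linter.all false

namespace Run7.h870.FS

open Finset
open scoped Classical

/-- integers of one residue class in an interval -/
theorem card_cls (L : ℕ) (k : ℕ) (hk : 1 ≤ k) (S : Finset ℤ) (h1 : ∀ x ∈ S, |x| ≤ L)
    (h2 : ∀ x ∈ S, ∀ y ∈ S, (k : ℤ) ∣ x - y) : (S.card : ℝ) ≤ 2 * L / k + 1 := by
  have hk0 : (0 : ℤ) < k := by exact_mod_cast hk
  have h3 : S.card ≤ (range (2 * L / k + 1)).card := by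
    apply card_le_card_of_injOn (fun x : ℤ => ((x + (L : ℤ)) / (k : ℤ)).toNat)
    · intro x hx
      have h4 := abs_le.1 (h1 x hx)
      rw [mem_coe, mem_range]
      show ((x + (L : ℤ)) / (k : ℤ)).toNat < 2 * L / k + 1
      obtain ⟨q, hq⟩ : ∃ q : ℕ, q = 2 * L / k := ⟨_, rfl⟩
      have h5 : (x + L) / k ≤ (2 * L) / k := Int.ediv_le_ediv hk0 (by linarith)
      have h6 : (q : ℤ) = (2 * L) / k := by rw [hq]; push_cast; rfl
      rw [← h6] at h5
      rw [← hq]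
      omega
    · intro x hx y hy hxy
      have h4 := abs_le.1 (h1 x hx)
      have h5 := abs_le.1 (h1 y hy)
      have h6 : 0 ≤ (x + L) / k := Int.ediv_nonneg (by linarith) hk0.le
      have h7 : 0 ≤ (y + L) / k := Int.ediv_nonneg (by linarith) hk0.le
      have h8 : (x + L) / k = (y + L) / k := by
        simp only at hxy
        omega
      obtain ⟨c, hc⟩ := h2 x hx y hy
      have h9 : x + L = (y + L) + k * c := by linarith
      rw [h9, Int.add_mul_ediv_left _ _ hk0.ne'] at h8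
      have h10 : c = 0 := by linarith
      rw [h10] at hc
      linarith
  rw [card_range] at h3
  have h4 : (S.card : ℝ) ≤ ((2 * L / k + 1 : ℕ) : ℝ) := by exact_mod_cast h3
  refine h4.trans ?_
  push_cast
  have h5 : ((2 * L / k : ℕ) : ℝ) ≤ ((2 * L : ℕ) : ℝ) / k := Nat.cast_div_le
  push_cast at h5
  linarith

/-- the solutions with given `(α, γ)` -/
noncomputable def inn (L : ℕ) (h : ℤ) (p : ℤ × ℤ) : ℕ :=
  ((Icc (-(L : ℤ)) L ×ˢ Icc (-(L : ℤ)) L).filter (fun q : ℤ × ℤ => p.1 * q.1 + p.2 * q.2 = h)).card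

theorem inn_swap (L : ℕ) (h : ℤ) (a c : ℤ) : inn L h (a, c) = inn L h (c, a) := by
  unfold inn
  apply card_bij (fun q _ => (q.2, q.1))
  · intro q hq
    rw [mem_filter, mem_product] at hq ⊢
    refine ⟨⟨hq.1.2, hq.1.1⟩, ?_⟩
    simp only
    linarith [hq.2]
  · intro q _ q' _ hqq
    rw [Prod.mk.injEq] at hqq
    exact Prod.ext hqq.2 hqq.1
  · intro q hq
    rw [mem_filter, mem_product] at hq
    refine ⟨(q.2, q.1), ?_, rfl⟩
    rw [mem_filter, mem_product]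
    refine ⟨⟨hq.1.2, hq.1.1⟩, ?_⟩
    simp only
    linarith [hq.2]

theorem inn_le (L : ℕ) (h a c : ℤ) (ha : a ≠ 0) (haL : |a| ≤ L) :
    (inn L h (a, c) : ℝ) ≤ if ((Int.gcd a c : ℕ) : ℤ) ∣ h then 3 * L * (Int.gcd a c : ℕ) / |(a : ℝ)| else 0 := by
  obtain ⟨g, hg⟩ : ∃ g, g = Int.gcd a c := ⟨_, rfl⟩
  rw [← hg]
  have hg0 : 0 < g := by
    rw [hg]
    exact Int.gcd_pos_of_ne_zero_left _ ha
  obtain ⟨a', ha'⟩ : (g : ℤ) ∣ a := by rw [hg]; exact Int.gcd_dvd_left a c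
  obtain ⟨c', hc'⟩ : (g : ℤ) ∣ c := by rw [hg]; exact Int.gcd_dvd_right a c
  have hgz : (0 : ℤ) < g := by exact_mod_cast hg0
  have ha0 : a' ≠ 0 := by
    rintro rfl
    rw [mul_zero] at ha'
    exact ha ha'
  have hcop : IsCoprime a' c' := by
    rw [Int.isCoprime_iff_gcd_eq_one]
    have h1 : Int.gcd a c = g * Int.gcd a' c' := by
      rw [ha', hc', Int.gcd_mul_left, Int.natAbs_natCast]
    rw [← hg] at h1
    have h2 : g * 1 = g * Int.gcd a' c' := by rw [mul_one]; exact h1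
    exact (Nat.eq_of_mul_eq_mul_left hg0 h2).symm
  obtain ⟨S, hS⟩ : ∃ S, S = (Icc (-(L : ℤ)) L ×ˢ Icc (-(L : ℤ)) L).filter (fun q : ℤ × ℤ => a * q.1 + c * q.2 = h) := ⟨_, rfl⟩
  have hin : inn L h (a, c) = S.card := by rw [hS]; rfl
  rw [hin]
  have hSm : ∀ q ∈ S, (|q.1| ≤ L ∧ |q.2| ≤ L) ∧ a * q.1 + c * q.2 = h := fun q hq => by
    rw [hS, mem_filter, mem_product, mem_Icc, mem_Icc] at hq
    exact ⟨⟨abs_le.2 hq.1.1, abs_le.2 hq.1.2⟩, hq.2⟩
  split_ifs with hd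
  · have h1 : (S.image Prod.snd).card = S.card := by
      apply card_image_of_injOn
      intro q hq q' hq' hqq
      have e1 := (hSm q (mem_coe.1 hq)).2
      have e2 := (hSm q' (mem_coe.1 hq')).2
      have hqq' : q.2 = q'.2 := hqq
      rw [hqq'] at e1
      have e3 : a * q.1 = a * q'.1 := by linarith
      exact Prod.ext (mul_left_cancel₀ ha e3) hqq'
    have h2 := card_cls L a'.natAbs (by
      have := Int.natAbs_pos.2 ha0
      omega) (S.image Prod.snd) (by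
        intro x hx
        obtain ⟨q, hq, rfl⟩ := mem_image.1 hx
        exact (hSm q hq).1.2) (by
        intro x hx y hy
        obtain ⟨q, hq, rfl⟩ := mem_image.1 hx
        obtain ⟨q', hq', rfl⟩ := mem_image.1 hy
        have e1 := (hSm q hq).2
        have e2 := (hSm q' hq').2
        rw [Int.natCast_natAbs, abs_dvd]
        apply hcop.dvd_of_dvd_mul_left
        refine ⟨q'.1 - q.1, ?_⟩
        have e3 : (g : ℤ) * (c' * (q.2 - q'.2)) = g * (a' * (q'.1 - q.1)) := by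
          rw [ha', hc'] at e1 e2
          linarith
        exact mul_left_cancel₀ hgz.ne' e3)
    rw [h1] at h2
    refine h2.trans ?_
    have hr : (0 : ℝ) < |(a : ℝ)| := abs_pos.2 (by exact_mod_cast ha)
    have hgr : (0 : ℝ) < g := by exact_mod_cast hg0
    have e4 : ((a'.natAbs : ℕ) : ℝ) = |(a : ℝ)| / g := by
      have e5 : |(a : ℝ)| = g * |(a' : ℝ)| := by
        rw [ha']
        push_cast
        rw [abs_mul, abs_of_pos hgr]
      rw [e5, Nat.cast_natAbs, Int.cast_abs]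
      field_simp
    rw [e4]
    have haL' : |(a : ℝ)| ≤ L := by exact_mod_cast haL
    have e6 : 2 * (L : ℝ) / (|(a : ℝ)| / g) = 2 * L * g / |(a : ℝ)| := by field_simp
    rw [e6]
    have hg1 : (1 : ℝ) ≤ g := by exact_mod_cast hg0
    have e7 : (1 : ℝ) ≤ L * g / |(a : ℝ)| := by
      rw [le_div_iff₀ hr, one_mul]
      nlinarith
    have e8 : 3 * (L : ℝ) * g / |(a : ℝ)| = 2 * L * g / |(a : ℝ)| + L * g / |(a : ℝ)| := by ring
    rw [e8]
    linarith
  · have : S = ∅ := by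
      rw [eq_empty_iff_forall_notMem]
      intro q hq
      apply hd
      rw [← (hSm q hq).2]
      exact dvd_add (Dvd.dvd.mul_right ⟨a', ha'⟩ _) (Dvd.dvd.mul_right ⟨c', hc'⟩ _)
    rw [this, card_empty, Nat.cast_zero]

/-- the divisor sum -/
noncomputable def ff (L : ℕ) (h : ℤ) : ℝ := ∑ g ∈ Icc 1 L, if (g : ℤ) ∣ h then 1 / (g : ℝ) else 0

theorem ff_nonneg (L : ℕ) (h : ℤ) : 0 ≤ ff L h := sum_nonneg fun g _ => by split_ifs <;> positivity

theorem one_le_ff (L : ℕ) (hL : 1 ≤ L) (h : ℤ) : 1 ≤ ff L h := by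
  have h1 := single_le_sum (s := Icc 1 L) (f := fun g : ℕ => if (g : ℤ) ∣ h then 1 / (g : ℝ) else 0) (fun g _ => by
    split_ifs <;> positivity) (mem_Icc.2 ⟨le_refl 1, hL⟩)
  simp only [Nat.cast_one, one_dvd, if_true, div_one] at h1
  exact h1

/-- all solutions -/
noncomputable def cnt (L : ℕ) (h : ℤ) : ℕ :=
  (((Icc (-(L : ℤ)) L ×ˢ Icc (-(L : ℤ)) L) ×ˢ (Icc (-(L : ℤ)) L ×ˢ Icc (-(L : ℤ)) L)).filter
    (fun r : (ℤ × ℤ) × (ℤ × ℤ) => r.1.1 * r.2.1 + r.1.2 * r.2.2 = h)).card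

theorem cnt_eq (L : ℕ) (h : ℤ) : cnt L h = ∑ p ∈ Icc (-(L : ℤ)) L ×ˢ Icc (-(L : ℤ)) L, inn L h p := by
  unfold cnt inn
  rw [card_filter, sum_product]
  refine sum_congr rfl fun p _ => ?_
  rw [card_filter]

/-- the bound for `|γ| ≤ |α|` -/
noncomputable def b1 (L : ℕ) (h : ℤ) (a c : ℤ) : ℝ :=
  if a ≠ 0 ∧ |c| ≤ |a| then ∑ g ∈ Icc 1 L, (if ((g : ℤ) ∣ a ∧ (g : ℤ) ∣ c) ∧ (g : ℤ) ∣ h then 3 * L * (g : ℝ) / |(a : ℝ)| else 0) else 0

theorem b1_nonneg (L : ℕ) (h : ℤ) (a c : ℤ) : 0 ≤ b1 L h a c := by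
  unfold b1
  split_ifs
  · exact sum_nonneg fun g _ => by split_ifs <;> positivity
  · exact le_rfl

theorem inn_le_b1 (L : ℕ) (h a c : ℤ) (ha : a ≠ 0) (haL : |a| ≤ L) (hc : |c| ≤ |a|) : (inn L h (a, c) : ℝ) ≤ b1 L h a c := by
  refine (inn_le L h a c ha haL).trans ?_
  unfold b1
  have hac : a ≠ 0 ∧ |c| ≤ |a| := ⟨ha, hc⟩
  rw [if_pos hac]
  have hg0 : 0 < Int.gcd a c := Int.gcd_pos_of_ne_zero_left _ ha
  have hgL : Int.gcd a c ≤ L := by
    have h1 : ((Int.gcd a c : ℕ) : ℤ) ∣ |a| := (dvd_abs _ _).2 (Int.gcd_dvd_left a c)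
    have h2 := Int.le_of_dvd (abs_pos.2 ha) h1
    exact_mod_cast h2.trans haL
  have h1 := single_le_sum (s := Icc 1 L) (f := fun g : ℕ => if ((g : ℤ) ∣ a ∧ (g : ℤ) ∣ c) ∧ (g : ℤ) ∣ h then 3 * L * (g : ℝ) / |(a : ℝ)| else 0)
    (fun g _ => by
      split_ifs <;> positivity) (mem_Icc.2 ⟨hg0, hgL⟩)
  refine le_trans ?_ h1
  split_ifs with h2 h3
  · exact le_rfl
  · exact absurd ⟨⟨Int.gcd_dvd_left a c, Int.gcd_dvd_right a c⟩, h2⟩ h3
  · positivity
  · exact le_rfl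

theorem mult_le (m g : ℕ) (hg : 1 ≤ g) (hgm : g ≤ m) (S : Finset ℤ) (h1 : ∀ x ∈ S, |x| ≤ m) (h2 : ∀ x ∈ S, (g : ℤ) ∣ x) :
    (S.card : ℝ) ≤ 3 * m / g := by
  have h3 := card_cls m g hg S h1 (fun x hx y hy => dvd_sub (h2 x hx) (h2 y hy))
  have hg0 : (0 : ℝ) < g := by exact_mod_cast hg
  have h4 : (1 : ℝ) ≤ m / g := by
    rw [le_div_iff₀ hg0, one_mul]
    exact_mod_cast hgm
  have h5 : 3 * (m : ℝ) / g = 2 * m / g + m / g := by ring
  rw [h5]
  linarith

theorem sum_b1 (L : ℕ) (hL : 1 ≤ L) (h : ℤ) :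
    ∑ a ∈ Icc (-(L : ℤ)) L, ∑ c ∈ Icc (-(L : ℤ)) L, b1 L h a c ≤ 27 * L ^ 2 * ff L h := by
  have hL0 : (0 : ℝ) < L := by exact_mod_cast hL
  -- one `α`
  have hA : ∀ a ∈ Icc (-(L : ℤ)) L, ∑ c ∈ Icc (-(L : ℤ)) L, b1 L h a c ≤
      ∑ g ∈ Icc 1 L, (if (g : ℤ) ∣ h then (if a ≠ 0 ∧ (g : ℤ) ∣ a then 9 * (L : ℝ) else 0) else 0) := by
    intro a ha
    rw [mem_Icc] at ha
    have haL : |a| ≤ L := abs_le.2 ha
    by_cases ha0 : a = 0
    · have : ∑ c ∈ Icc (-(L : ℤ)) L, b1 L h a c = 0 := by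
        apply sum_eq_zero
        intro c _
        unfold b1
        rw [if_neg (fun h => h.1 ha0)]
      rw [this]
      exact sum_nonneg fun g _ => by split_ifs <;> positivity
    · have har : (0 : ℝ) < |(a : ℝ)| := abs_pos.2 (by exact_mod_cast ha0)
      have e1 : ∀ c, b1 L h a c = ∑ g ∈ Icc 1 L, (if (g : ℤ) ∣ h then (if (g : ℤ) ∣ a then
          (if |c| ≤ |a| ∧ (g : ℤ) ∣ c then 3 * L * (g : ℝ) / |(a : ℝ)| else 0) else 0) else 0) := by
        intro c
        unfold b1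
        by_cases hc : |c| ≤ |a|
        · rw [if_pos ⟨ha0, hc⟩]
          refine sum_congr rfl fun g _ => ?_
          by_cases c1 : (g : ℤ) ∣ h <;> by_cases c2 : (g : ℤ) ∣ a <;> by_cases c3 : (g : ℤ) ∣ c <;> simp [c1, c2, c3, hc]
        · rw [if_neg (fun h => hc h.2)]
          symm
          apply sum_eq_zero
          intro g _
          by_cases c1 : (g : ℤ) ∣ h <;> by_cases c2 : (g : ℤ) ∣ a <;> simp [c1, c2, hc]
      rw [sum_congr rfl (fun c _ => e1 c), sum_comm]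
      apply sum_le_sum
      intro g hg
      rw [mem_Icc] at hg
      have hg0 : (0 : ℝ) < g := by exact_mod_cast hg.1
      by_cases c1 : (g : ℤ) ∣ h
      · by_cases c2 : (g : ℤ) ∣ a
        · simp only [c1, c2, ha0, ne_eq, not_false_eq_true, and_self, if_true]
          rw [← sum_filter, sum_const, nsmul_eq_mul]
          have h5 : g ≤ a.natAbs := by
            have h6 : (g : ℤ) ∣ |a| := (dvd_abs _ _).2 c2
            have h7 := Int.le_of_dvd (abs_pos.2 ha0) h6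
            rw [← Int.natCast_natAbs] at h7
            exact_mod_cast h7
          have h4 := mult_le a.natAbs g hg.1 h5 ((Icc (-(L : ℤ)) L).filter fun c => |c| ≤ |a| ∧ (g : ℤ) ∣ c) (by
            intro x hx
            rw [mem_filter] at hx
            rw [Int.natCast_natAbs]
            exact hx.2.1) (fun x hx => (mem_filter.1 hx).2.2)
          have e2 : ((a.natAbs : ℕ) : ℝ) = |(a : ℝ)| := by rw [Nat.cast_natAbs, Int.cast_abs]
          rw [e2] at h4
          refine (mul_le_mul_of_nonneg_right h4 (by positivity)).trans (le_of_eq ?_)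
          field_simp
          ring
        · simp [c1, c2]
      · simp [c1]
  refine (sum_le_sum hA).trans ?_
  rw [sum_comm]
  unfold ff
  rw [mul_sum]
  apply sum_le_sum
  intro g hg
  rw [mem_Icc] at hg
  have hg0 : (0 : ℝ) < g := by exact_mod_cast hg.1
  by_cases c1 : (g : ℤ) ∣ h
  · simp only [c1, if_true]
    rw [← sum_filter, sum_const, nsmul_eq_mul]
    have h4 := mult_le L g hg.1 hg.2 ((Icc (-(L : ℤ)) L).filter fun a => a ≠ 0 ∧ (g : ℤ) ∣ a) (by
      intro x hx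
      rw [mem_filter, mem_Icc] at hx
      exact abs_le.2 hx.1) (fun x hx => (mem_filter.1 hx).2.2)
    refine (mul_le_mul_of_nonneg_right h4 (by positivity)).trans (le_of_eq ?_)
    field_simp
    ring
  · simp [c1]

/-- **the number of solutions** -/
theorem cnt_le (L : ℕ) (hL : 1 ≤ L) (h : ℤ) : (cnt L h : ℝ) ≤ 63 * L ^ 2 * ff L h := by
  have hL1 : (1 : ℝ) ≤ L := by exact_mod_cast hL
  have hf1 := one_le_ff L hL h
  rw [cnt_eq]
  push_cast
  have h1 : ∀ p ∈ Icc (-(L : ℤ)) L ×ˢ Icc (-(L : ℤ)) L, (inn L h p : ℝ) ≤ b1 L h p.1 p.2 + b1 L h p.2 p.1 +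
      (if p = ((0 : ℤ), (0 : ℤ)) then 9 * (L : ℝ) ^ 2 * ff L h else 0) := by
    intro p hp
    obtain ⟨a, c⟩ := p
    rw [mem_product, mem_Icc, mem_Icc] at hp
    have haL : |a| ≤ L := abs_le.2 hp.1
    have hcL : |c| ≤ L := abs_le.2 hp.2
    simp only
    have p1 := b1_nonneg L h a c
    have p2 := b1_nonneg L h c a
    have p3 : (0 : ℝ) ≤ (if ((a, c) : ℤ × ℤ) = ((0 : ℤ), (0 : ℤ)) then 9 * (L : ℝ) ^ 2 * ff L h else 0) := by
      split_ifs
      · have := ff_nonneg L h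
        positivity
      · exact le_rfl
    by_cases h0 : a = 0 ∧ c = 0
    · obtain ⟨rfl, rfl⟩ := h0
      rw [if_pos rfl]
      have h2 : inn L h (0, 0) ≤ (Icc (-(L : ℤ)) L ×ˢ Icc (-(L : ℤ)) L).card := card_filter_le _ _
      rw [card_product, Int.card_Icc] at h2
      have h3 : ((L : ℤ) + 1 - -(L : ℤ)).toNat = 2 * L + 1 := by omega
      rw [h3] at h2
      have h4 : (inn L h (0, 0) : ℝ) ≤ (2 * L + 1) * (2 * L + 1) := by exact_mod_cast h2
      nlinarith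
    · by_cases hac : |c| ≤ |a|
      · have ha0 : a ≠ 0 := by
          rintro rfl
          rw [abs_zero] at hac
          exact h0 ⟨rfl, abs_eq_zero.1 (le_antisymm hac (abs_nonneg c))⟩
        have := inn_le_b1 L h a c ha0 haL hac
        linarith
      · have hca : |a| ≤ |c| := le_of_lt (not_le.1 hac)
        have hc0 : c ≠ 0 := by
          rintro rfl
          rw [abs_zero] at hac
          exact hac (abs_nonneg a)
        have := inn_le_b1 L h c a hc0 hcL hca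
        rw [inn_swap] at this
        linarith
  refine (sum_le_sum h1).trans ?_
  rw [sum_add_distrib, sum_add_distrib]
  have h2 := sum_b1 L hL h
  have h3 : ∑ p ∈ Icc (-(L : ℤ)) L ×ˢ Icc (-(L : ℤ)) L, b1 L h p.1 p.2 ≤ 27 * L ^ 2 * ff L h := by
    rw [sum_product]
    exact h2
  have h4 : ∑ p ∈ Icc (-(L : ℤ)) L ×ˢ Icc (-(L : ℤ)) L, b1 L h p.2 p.1 ≤ 27 * L ^ 2 * ff L h := by
    rw [sum_product_right]
    exact h2
  have h5 : ∑ p ∈ Icc (-(L : ℤ)) L ×ˢ Icc (-(L : ℤ)) L, (if p = ((0 : ℤ), (0 : ℤ)) then 9 * (L : ℝ) ^ 2 * ff L h else 0) ≤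
      9 * (L : ℝ) ^ 2 * ff L h := by
    rw [sum_ite_eq']
    split_ifs
    · exact le_rfl
    · positivity
  linarith

end Run7.h870.FS
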