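import Pool.Agent.Run7.h870.FS.Mo
import Pool.Agent.Y820.LT.R
import Pool.Agent.H312R2.RatBound

/-!
# Pairs of quadruples with the same norm
-/

set_option autoImplicit false
set_option linter.all false

namespace Run7.h870.FS

open Finset
open Pool.Agent.H646 (rat)
open Pool.Agent.W93.HD (gg)
open scoped Classical

/-- the quadruples -/
def box (M : ℕ) : Finset (ℕ × ℕ × ℕ × ℕ) := Icc 1 M ×ˢ (Icc 1 M ×ˢ (Icc 1 M ×ˢ Icc 1 M))

/-- the sum of the squares -/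
def nn (q : ℕ × ℕ × ℕ × ℕ) : ℕ := q.1 ^ 2 + q.2.1 ^ 2 + q.2.2.1 ^ 2 + q.2.2.2 ^ 2

/-- the sum of the powers of two -/
def VV (q : ℕ × ℕ × ℕ × ℕ) : ℕ := 2 ^ (q.1 + q.2.1) + 2 ^ (q.2.2.1 + q.2.2.2)

/-- the pairs with the same norm -/
noncomputable def PP (M : ℕ) : Finset ((ℕ × ℕ × ℕ × ℕ) × (ℕ × ℕ × ℕ × ℕ)) :=
  (box M ×ˢ box M).filter (fun r => nn r.1 = nn r.2)

/-- the exponents -/
def key (r : (ℕ × ℕ × ℕ × ℕ) × (ℕ × ℕ × ℕ × ℕ)) : (ℕ × ℕ) × (ℕ × ℕ) :=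
  ((r.1.1 + r.1.2.1, r.1.2.2.1 + r.1.2.2.2), (r.2.1 + r.2.2.1, r.2.2.2.1 + r.2.2.2.2))

/-- all exponents -/
def keys (M : ℕ) : Finset ((ℕ × ℕ) × (ℕ × ℕ)) := (range (2 * M + 1) ×ˢ range (2 * M + 1)) ×ˢ (range (2 * M + 1) ×ˢ range (2 * M + 1))

/-- the form -/
def hh (k : (ℕ × ℕ) × (ℕ × ℕ)) : ℤ := (k.1.1 : ℤ) ^ 2 + (k.1.2 : ℤ) ^ 2 - (k.2.1 : ℤ) ^ 2 - (k.2.2 : ℤ) ^ 2

/-- the difference -/
def DD (k : (ℕ × ℕ) × (ℕ × ℕ)) : ℤ := 2 ^ k.1.1 + 2 ^ k.1.2 - 2 ^ k.2.1 - 2 ^ k.2.2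

theorem mem_box (M : ℕ) (x y z w : ℕ) : (x, y, z, w) ∈ box M ↔ (1 ≤ x ∧ x ≤ M) ∧ (1 ≤ y ∧ y ≤ M) ∧ (1 ≤ z ∧ z ≤ M) ∧ (1 ≤ w ∧ w ≤ M) := by
  unfold box
  simp only [mem_product, mem_Icc]

theorem key_mem (M : ℕ) (r) (hr : r ∈ PP M) : key r ∈ keys M := by
  obtain ⟨⟨x, y, z, w⟩, ⟨x', y', z', w'⟩⟩ := r
  unfold PP at hr
  rw [mem_filter, mem_product] at hr
  obtain ⟨⟨h1, h2⟩, _⟩ := hr
  simp only at h1 h2
  rw [mem_box] at h1 h2
  unfold key keys
  simp only [mem_product, mem_range]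
  omega

theorem fib_le (M : ℕ) (k) : ((PP M).filter (fun r => key r = k)).card ≤ cnt (4 * M) (hh k) := by
  unfold cnt
  apply card_le_card_of_injOn (fun r : (ℕ × ℕ × ℕ × ℕ) × (ℕ × ℕ × ℕ × ℕ) =>
    (((((r.2.1 : ℤ) - r.2.2.1) - ((r.1.1 : ℤ) - r.1.2.1)), (((r.2.2.2.1 : ℤ) - r.2.2.2.2) - ((r.1.2.2.1 : ℤ) - r.1.2.2.2))),
      ((((r.2.1 : ℤ) - r.2.2.1) + ((r.1.1 : ℤ) - r.1.2.1)), (((r.2.2.2.1 : ℤ) - r.2.2.2.2) + ((r.1.2.2.1 : ℤ) - r.1.2.2.2)))))
  · intro r hr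
    obtain ⟨⟨x, y, z, w⟩, ⟨x', y', z', w'⟩⟩ := r
    rw [mem_coe, mem_filter] at hr
    obtain ⟨hr, hk⟩ := hr
    unfold PP at hr
    rw [mem_filter, mem_product] at hr
    obtain ⟨⟨h1, h2⟩, h3⟩ := hr
    simp only at h1 h2 h3
    rw [mem_box] at h1 h2
    rw [mem_coe, mem_filter]
    simp only [mem_product, mem_Icc]
    constructor
    · push_cast
      omega
    · rw [← hk]
      unfold hh key
      unfold nn at h3
      simp only at h3 ⊢
      have h4 : (x : ℤ) ^ 2 + y ^ 2 + z ^ 2 + w ^ 2 = x' ^ 2 + y' ^ 2 + z' ^ 2 + w' ^ 2 := by exact_mod_cast h3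
      push_cast
      linarith [h4]
  · intro r hr r' hr' hrr
    obtain ⟨⟨x, y, z, w⟩, ⟨x', y', z', w'⟩⟩ := r
    obtain ⟨⟨a, b, c, d⟩, ⟨a', b', c', d'⟩⟩ := r'
    rw [mem_coe, mem_filter] at hr hr'
    have h1 := hr.2
    have h2 := hr'.2
    rw [← h2] at h1
    unfold key at h1
    simp only [Prod.mk.injEq] at h1 hrr ⊢
    omega

theorem Nh_le (M : ℕ) (h : ℤ) : ((keys M).filter (fun k => hh k = h)).card ≤ cnt (4 * M) h := by
  unfold cnt
  apply card_le_card_of_injOn (fun k : (ℕ × ℕ) × (ℕ × ℕ) =>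
    ((((k.1.1 : ℤ) - k.2.1), ((k.1.2 : ℤ) - k.2.2)), (((k.1.1 : ℤ) + k.2.1), ((k.1.2 : ℤ) + k.2.2))))
  · intro k hk
    obtain ⟨⟨u, v⟩, ⟨u', v'⟩⟩ := k
    rw [mem_coe, mem_filter] at hk ⊢
    obtain ⟨h1, h2⟩ := hk
    unfold keys at h1
    simp only [mem_product, mem_range] at h1
    simp only [mem_product, mem_Icc]
    constructor
    · push_cast
      omega
    · rw [← h2]
      unfold hh
      simp only
      ring
  · intro k hk k' hk' hkk
    obtain ⟨⟨u, v⟩, ⟨u', v'⟩⟩ := k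
    obtain ⟨⟨a, b⟩, ⟨a', b'⟩⟩ := k'
    simp only [Prod.mk.injEq] at hkk ⊢
    omega

theorem hh_mem (M : ℕ) (k) (hk : k ∈ keys M) : hh k ∈ Icc (-((8 * M ^ 2 : ℕ) : ℤ)) ((8 * M ^ 2 : ℕ) : ℤ) := by
  obtain ⟨⟨u, v⟩, ⟨u', v'⟩⟩ := k
  unfold keys at hk
  simp only [mem_product, mem_range] at hk
  unfold hh
  simp only
  obtain ⟨⟨h1, h2⟩, h3, h4⟩ := hk
  have e : ∀ t : ℕ, t < 2 * M + 1 → (t : ℤ) ^ 2 ≤ 4 * M ^ 2 := by
    intro t ht
    have h5 : (t : ℤ) ≤ 2 * M := by exact_mod_cast (by omega : t ≤ 2 * M)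
    nlinarith [Int.natCast_nonneg t]
  have := e u h1
  have := e v h2
  have := e u' h3
  have := e v' h4
  rw [mem_Icc]
  push_cast
  constructor <;> nlinarith [sq_nonneg (u : ℤ), sq_nonneg (v : ℤ), sq_nonneg (u' : ℤ), sq_nonneg (v' : ℤ)]

/-- the second moment over the exponents -/
theorem ff_keys : ∃ C : ℝ, 0 < C ∧ ∀ M : ℕ, 1 ≤ M → ∑ k ∈ keys M, ff (4 * M) (hh k) ^ 2 ≤ C * M ^ 4 := by
  obtain ⟨C, hC, hm⟩ := ff_moment
  refine ⟨63 * 16 * (C * 8), by positivity, fun M hM => ?_⟩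
  have h1 := sum_fiberwise_of_maps_to (s := keys M) (t := Icc (-((8 * M ^ 2 : ℕ) : ℤ)) ((8 * M ^ 2 : ℕ) : ℤ)) (g := hh)
    (fun k hk => hh_mem M k hk) (fun k => ff (4 * M) (hh k) ^ 2)
  rw [← h1]
  have h2 : ∀ h ∈ Icc (-((8 * M ^ 2 : ℕ) : ℤ)) ((8 * M ^ 2 : ℕ) : ℤ), ∑ k ∈ (keys M).filter (fun k => hh k = h), ff (4 * M) (hh k) ^ 2 ≤
      63 * 16 * M ^ 2 * ff (4 * M) h ^ 3 := by
    intro h _
    have e1 : ∑ k ∈ (keys M).filter (fun k => hh k = h), ff (4 * M) (hh k) ^ 2 = ((keys M).filter (fun k => hh k = h)).card * ff (4 * M) h ^ 2 := by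
      rw [sum_congr rfl (g := fun _ => ff (4 * M) h ^ 2) (fun k hk => by rw [(mem_filter.1 hk).2]), sum_const, nsmul_eq_mul]
    rw [e1]
    have h3 : (((keys M).filter (fun k => hh k = h)).card : ℝ) ≤ cnt (4 * M) h := by exact_mod_cast Nh_le M h
    have h4 := cnt_le (4 * M) (by omega) h
    have h5 := ff_nonneg (4 * M) h
    push_cast at h4
    calc _ ≤ (63 * (4 * (M : ℝ)) ^ 2 * ff (4 * M) h) * ff (4 * M) h ^ 2 :=
          mul_le_mul_of_nonneg_right (h3.trans h4) (by positivity)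
      _ = _ := by ring
  refine (sum_le_sum h2).trans ?_
  rw [← mul_sum]
  have h3 := hm (4 * M) (8 * M ^ 2) (by omega) (by nlinarith)
  push_cast at h3 ⊢
  calc 63 * 16 * (M : ℝ) ^ 2 * ∑ h ∈ Icc (-(8 * (M : ℤ) ^ 2)) (8 * (M : ℤ) ^ 2), ff (4 * M) h ^ 3
      ≤ 63 * 16 * (M : ℝ) ^ 2 * (C * (8 * M ^ 2)) := mul_le_mul_of_nonneg_left h3 (by positivity)
    _ = _ := by ring

theorem rat_gg (n : ℕ) (hn : 1 ≤ n) : rat n ≤ gg n ^ 4 := by
  refine (Pool.Agent.H312R2.rat_le_exp n hn).trans ?_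
  unfold gg
  rw [← prod_pow, mul_sum, Real.exp_sum]
  apply prod_le_prod
  · intro p _
    positivity
  · intro p hp
    have hp2 : (2 : ℝ) ≤ p := by exact_mod_cast (Nat.prime_of_mem_primeFactors hp).two_le
    obtain ⟨x, hx⟩ : ∃ x : ℝ, x = 1 / (p : ℝ) := ⟨_, rfl⟩
    have hx0 : 0 ≤ x := by rw [hx]; positivity
    have hx1 : x ≤ 1 / 2 := by
      rw [hx]
      exact one_div_le_one_div_of_le (by norm_num) hp2
    rw [← hx]
    have h1 : Real.exp (x / 2) ≤ 1 + x := by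
      have h2 := Real.abs_exp_sub_one_sub_id_le (x := x / 2) (by rw [abs_of_nonneg (by positivity)]; linarith)
      have h3 := (abs_le.1 h2).2
      nlinarith
    have h2 : Real.exp (2 * x) = Real.exp (x / 2) ^ 4 := by
      rw [← Real.exp_nat_mul]
      congr 1
      push_cast
      ring
    rw [h2]
    exact pow_le_pow_left₀ (Real.exp_pos _).le h1 4

/-- the weight of the difference -/
noncomputable def GG (B : ℕ) (k : (ℕ × ℕ) × (ℕ × ℕ)) : ℝ := if DD k = 0 then 0 else rat (DD k).natAbs ^ B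

theorem GG_nonneg (B : ℕ) (k) : 0 ≤ GG B k := by
  unfold GG
  split_ifs
  · exact le_rfl
  · apply pow_nonneg
    unfold rat
    positivity

theorem GG_keys (B : ℕ) : ∃ C : ℝ, 0 < C ∧ ∀ M : ℕ, 1 ≤ M → ∑ k ∈ keys M, GG B k ^ 2 ≤ C * M ^ 4 := by
  obtain ⟨C, hC0, hC⟩ := Pool.Agent.Y820.LT.RR.rom_pow (4 * (B * 2)) 2 le_rfl
  refine ⟨C * 81 + 1, by positivity, fun M hM => ?_⟩
  have hM1 : (1 : ℝ) ≤ M := by exact_mod_cast hM
  unfold keys
  rw [sum_product, sum_product_right]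
  have h1 : ∀ v ∈ range (2 * M + 1), ∑ u ∈ range (2 * M + 1), ∑ l ∈ range (2 * M + 1) ×ˢ range (2 * M + 1), GG B ((u, v), l) ^ 2 ≤
      ∑ l ∈ range (2 * M + 1) ×ˢ range (2 * M + 1), C * ((2 * M + 1 : ℕ) : ℝ) := by
    intro v hv
    rw [mem_range] at hv
    rw [sum_comm]
    apply sum_le_sum
    intro l hl
    obtain ⟨u', v'⟩ := l
    rw [mem_product, mem_range, mem_range] at hl
    have h2 := hC (2 * M + 1) (by omega) (fun _ => 1) (fun j => ⟨one_ne_zero, by norm_num⟩) (range (2 * M + 1)) (Subset.refl _)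
      (2 ^ v - 2 ^ u' - 2 ^ v') (by
        have e : ∀ t : ℕ, t < 2 * M + 1 → ((2 : ℤ) ^ t ≤ 2 ^ (2 * M)) := fun t ht => pow_le_pow_right₀ (by norm_num) (by omega)
        have e1 := e v hv
        have e2 := e u' hl.1
        have e3 := e v' hl.2
        have p1 : (0 : ℤ) < 2 ^ v := by positivity
        have p2 : (0 : ℤ) < 2 ^ u' := by positivity
        have p3 : (0 : ℤ) < 2 ^ v' := by positivity
        have e4 : ((2 : ℕ) : ℤ) ^ (2 * (2 * M + 1)) = 2 ^ (2 * M) * (2 ^ (2 * M) * 4) := by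
          push_cast
          rw [show 2 * (2 * M + 1) = 2 * M + (2 * M + 2) by ring, pow_add, pow_add]
          norm_num
        have p4 : (1 : ℤ) ≤ 2 ^ (2 * M) := one_le_pow₀ (by norm_num)
        rw [e4, abs_le]
        constructor <;> nlinarith)
    refine le_trans (sum_le_sum fun u _ => ?_) h2
    have e5 : (1 : ℤ) * ((2 : ℕ) : ℤ) ^ u + (2 ^ v - 2 ^ u' - 2 ^ v') = DD ((u, v), (u', v')) := by
      unfold DD
      push_cast
      ring
    rw [e5]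
    unfold GG
    split_ifs with hd
    · simp
    · have h3 : 1 ≤ (DD ((u, v), (u', v'))).natAbs := by
        have := Int.natAbs_pos.2 hd
        omega
      have h4 := rat_gg _ h3
      have h5 : 0 ≤ rat (DD ((u, v), (u', v'))).natAbs := by
        unfold rat
        positivity
      calc (rat (DD ((u, v), (u', v'))).natAbs ^ B) ^ 2 = rat (DD ((u, v), (u', v'))).natAbs ^ (B * 2) := by rw [← pow_mul]
        _ ≤ (gg (DD ((u, v), (u', v'))).natAbs ^ 4) ^ (B * 2) := pow_le_pow_left₀ h5 h4 _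
        _ = gg (DD ((u, v), (u', v'))).natAbs ^ (4 * (B * 2)) := by rw [← pow_mul]
  refine (sum_le_sum h1).trans ?_
  rw [sum_const, sum_const, card_product, card_range, nsmul_eq_mul, nsmul_eq_mul]
  push_cast
  have h6 : 2 * (M : ℝ) + 1 ≤ 3 * M := by linarith
  have h7 : (2 * (M : ℝ) + 1) ^ 4 ≤ (3 * M) ^ 4 := pow_le_pow_left₀ (by positivity) h6 4
  calc (2 * (M : ℝ) + 1) * ((2 * M + 1) * (2 * M + 1) * (C * (2 * M + 1))) = C * (2 * M + 1) ^ 4 := by ring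
    _ ≤ C * (3 * M) ^ 4 := mul_le_mul_of_nonneg_left h7 hC0
    _ = C * 81 * M ^ 4 := by ring
    _ ≤ (C * 81 + 1) * M ^ 4 := by
        apply mul_le_mul_of_nonneg_right _ (by positivity)
        linarith

/-- **the sum of the weights over the pairs** -/
theorem pairs_le (B : ℕ) : ∃ C : ℝ, 0 < C ∧ ∀ M : ℕ, 1 ≤ M → ∑ r ∈ PP M, GG B (key r) ≤ C * M ^ 6 := by
  obtain ⟨C1, hC1, h1⟩ := ff_keys
  obtain ⟨C2, hC2, h2⟩ := GG_keys B
  refine ⟨63 * 16 * (C2 + C1), by positivity, fun M hM => ?_⟩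
  have hM0 : (0 : ℝ) < M := by exact_mod_cast hM
  rw [← sum_fiberwise_of_maps_to (s := PP M) (t := keys M) (g := key) (fun r hr => key_mem M r hr) (fun r => GG B (key r))]
  have h3 : ∀ k ∈ keys M, ∑ r ∈ (PP M).filter (fun r => key r = k), GG B (key r) ≤
      63 * 16 * M ^ 2 * ((GG B k ^ 2 + ff (4 * M) (hh k) ^ 2) / 2) := by
    intro k _
    have e1 : ∑ r ∈ (PP M).filter (fun r => key r = k), GG B (key r) = ((PP M).filter (fun r => key r = k)).card * GG B k := by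
      rw [sum_congr rfl (g := fun _ => GG B k) (fun r hr => by rw [(mem_filter.1 hr).2]), sum_const, nsmul_eq_mul]
    rw [e1]
    have h4 : (((PP M).filter (fun r => key r = k)).card : ℝ) ≤ cnt (4 * M) (hh k) := by exact_mod_cast fib_le M k
    have h5 := cnt_le (4 * M) (by omega) (hh k)
    push_cast at h5
    have h6 := GG_nonneg B k
    calc _ ≤ (63 * (4 * (M : ℝ)) ^ 2 * ff (4 * M) (hh k)) * GG B k := mul_le_mul_of_nonneg_right (h4.trans h5) h6
      _ = 63 * 16 * M ^ 2 * (GG B k * ff (4 * M) (hh k)) := by ring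
      _ ≤ _ := by
          apply mul_le_mul_of_nonneg_left _ (by positivity)
          nlinarith [sq_nonneg (GG B k - ff (4 * M) (hh k))]
  refine (sum_le_sum h3).trans ?_
  rw [← mul_sum, ← sum_div, sum_add_distrib]
  have h4 := h1 M hM
  have h5 := h2 M hM
  have h6 : (∑ k ∈ keys M, GG B k ^ 2 + ∑ k ∈ keys M, ff (4 * M) (hh k) ^ 2) / 2 ≤ (C2 + C1) * M ^ 4 := by
    have : 0 ≤ (C2 + C1) * (M : ℝ) ^ 4 := by positivity
    linarith
  calc _ ≤ 63 * 16 * (M : ℝ) ^ 2 * ((C2 + C1) * M ^ 4) := mul_le_mul_of_nonneg_left h6 (by positivity)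
    _ = _ := by ring

theorem ff_le (L : ℕ) (h : ℤ) : ff L h ≤ 1 + Real.log L := by
  have h1 : ff L h ≤ ∑ g ∈ Icc 1 L, 1 / (g : ℝ) := by
    unfold ff
    apply sum_le_sum
    intro g _
    split_ifs
    · exact le_rfl
    · positivity
  refine h1.trans ?_
  have h2 := harmonic_le_one_add_log L
  rw [harmonic_eq_sum_Icc] at h2
  push_cast at h2
  simpa [one_div] using h2

theorem DD_zero (M : ℕ) : ((keys M).filter (fun k => DD k = 0)).card ≤ 2 * (2 * M + 1) ^ 2 := by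
  have h1 : ((keys M).filter (fun k => DD k = 0)).card ≤
      (((range (2 * M + 1)) ×ˢ (range (2 * M + 1))) ×ˢ (univ : Finset Bool)).card := by
    apply card_le_card_of_injOn (fun k : (ℕ × ℕ) × (ℕ × ℕ) => (k.1, decide (k.2.1 ≤ k.2.2)))
    · intro k hk
      rw [mem_coe, mem_filter] at hk
      unfold keys at hk
      rw [mem_product] at hk
      rw [mem_coe, mem_product]
      exact ⟨hk.1.1, mem_univ _⟩
    · intro k hk k' hk' hkk
      obtain ⟨⟨u, v⟩, ⟨a, b⟩⟩ := k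
      obtain ⟨⟨u', v'⟩, ⟨c, d⟩⟩ := k'
      rw [mem_coe, mem_filter] at hk hk'
      simp only [Prod.mk.injEq, decide_eq_decide] at hkk
      obtain ⟨⟨e1, e2⟩, e3⟩ := hkk
      have d1 := hk.2
      have d2 := hk'.2
      unfold DD at d1 d2
      simp only at d1 d2
      rw [← e1, ← e2] at d2
      have d3 : (2 : ℤ) ^ a + 2 ^ b = 2 ^ c + 2 ^ d := by linarith
      have d4 : (2 : ℕ) ^ a + 2 ^ b = 2 ^ c + 2 ^ d := by exact_mod_cast d3
      have key2 : ∀ a b c d : ℕ, a ≤ b → c ≤ d → 2 ^ a + 2 ^ b = 2 ^ c + 2 ^ d → b ≤ d := by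
        intro a b c d hab hcd he
        by_contra hcon
        have h5 : d + 1 ≤ b := by omega
        have h6 : 2 ^ c ≤ 2 ^ d := Nat.pow_le_pow_right (by norm_num) hcd
        have h7 : 2 ^ (d + 1) ≤ 2 ^ b := Nat.pow_le_pow_right (by norm_num) h5
        have h8 : 0 < 2 ^ a := by positivity
        rw [pow_succ] at h7
        omega
      have key3 : ∀ a b c d : ℕ, a ≤ b → c ≤ d → 2 ^ a + 2 ^ b = 2 ^ c + 2 ^ d → a = c ∧ b = d := by
        intro a b c d hab hcd he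
        have h5 : b = d := le_antisymm (key2 a b c d hab hcd he) (key2 c d a b hcd hab he.symm)
        refine ⟨?_, h5⟩
        rw [h5] at he
        exact Nat.pow_right_injective le_rfl (by omega : 2 ^ a = 2 ^ c)
      simp only [Prod.mk.injEq]
      refine ⟨⟨e1, e2⟩, ?_⟩
      by_cases hab : a ≤ b
      · exact key3 a b c d hab (e3.1 hab) d4
      · have hcd : ¬ c ≤ d := fun h => hab (e3.2 h)
        have := key3 b a d c (by omega) (by omega) (by omega)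
        exact ⟨this.2, this.1⟩
  refine h1.trans (le_of_eq ?_)
  rw [card_product, card_product, card_range, card_univ, Fintype.card_bool]
  ring

/-- the pairs with the same sum of powers -/
theorem zero_le (M : ℕ) (hM : 1 ≤ M) : (((PP M).filter (fun r => DD (key r) = 0)).card : ℝ) ≤ 63 * 16 * 18 * M ^ 4 * (1 + Real.log (4 * M)) := by
  have hM1 : (1 : ℝ) ≤ M := by exact_mod_cast hM
  have h0 : (((PP M).filter (fun r => DD (key r) = 0)).card : ℝ) = ∑ k ∈ (keys M).filter (fun k => DD k = 0), (((PP M).filter (fun r => key r = k)).card : ℝ) := by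
    rw [card_filter]
    push_cast
    rw [← sum_fiberwise_of_maps_to (s := PP M) (t := keys M) (g := key) (fun r hr => key_mem M r hr) (fun r => if DD (key r) = 0 then (1 : ℝ) else 0), sum_filter]
    refine sum_congr rfl fun k _ => ?_
    rw [sum_congr rfl (g := fun _ => if DD k = 0 then (1 : ℝ) else 0) (fun r hr => by rw [(mem_filter.1 hr).2]), sum_const, nsmul_eq_mul]
    split_ifs
    · rw [mul_one]
    · rw [mul_zero]
  rw [h0]
  have h1 : ∀ k ∈ (keys M).filter (fun k => DD k = 0), (((PP M).filter (fun r => key r = k)).card : ℝ) ≤ 63 * 16 * M ^ 2 * (1 + Real.log (4 * M)) := by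
    intro k _
    have h4 : (((PP M).filter (fun r => key r = k)).card : ℝ) ≤ cnt (4 * M) (hh k) := by exact_mod_cast fib_le M k
    have h5 := cnt_le (4 * M) (by omega) (hh k)
    have h6 := ff_le (4 * M) (hh k)
    push_cast at h5 h6
    calc _ ≤ 63 * (4 * (M : ℝ)) ^ 2 * ff (4 * M) (hh k) := h4.trans h5
      _ ≤ 63 * (4 * (M : ℝ)) ^ 2 * (1 + Real.log (4 * M)) := mul_le_mul_of_nonneg_left h6 (by positivity)
      _ = _ := by ring
  refine (sum_le_sum h1).trans ?_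
  rw [sum_const, nsmul_eq_mul]
  have h2 : (((keys M).filter (fun k => DD k = 0)).card : ℝ) ≤ 2 * (2 * M + 1) ^ 2 := by exact_mod_cast DD_zero M
  have h3 : (2 * (M : ℝ) + 1) ^ 2 ≤ (3 * M) ^ 2 := pow_le_pow_left₀ (by positivity) (by linarith) 2
  have h4 : 0 ≤ Real.log (4 * (M : ℝ)) := Real.log_nonneg (by linarith)
  calc _ ≤ (18 * (M : ℝ) ^ 2) * (63 * 16 * M ^ 2 * (1 + Real.log (4 * M))) := by
        apply mul_le_mul_of_nonneg_right _ (by positivity)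
        nlinarith
    _ = _ := by ring

end Run7.h870.FS
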