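import Pool.Agent.Run7.h870.FS.Sm

/-!
# Four squares and primes `2 ^ (x + y) + 2 ^ (z + w) + a`, for a positive proportion of the constants
-/

set_option autoImplicit false
set_option linter.all false

namespace Run7.h870.FS

open Finset Filter
open scoped Classical

theorem odd_box (M : ℕ) (hM : 2 ≤ M) : (M : ℝ) ^ 4 / 256 ≤ (((box M).filter (fun q => Odd (nn q))).card : ℝ) := by
  obtain ⟨h, hh⟩ : ∃ h, h = M / 2 := ⟨_, rfl⟩
  have h1 : (Icc 1 h ×ˢ (Icc 1 h ×ˢ (Icc 1 h ×ˢ Icc 1 h))).card ≤ ((box M).filter (fun q => Odd (nn q))).card := by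
    apply card_le_card_of_injOn (fun q : ℕ × ℕ × ℕ × ℕ => (2 * q.1 - 1, 2 * q.2.1, 2 * q.2.2.1, 2 * q.2.2.2))
    · intro q hq
      obtain ⟨x, y, z, w⟩ := q
      rw [mem_coe] at hq
      simp only [mem_product, mem_Icc] at hq
      rw [mem_coe]
      show (2 * x - 1, 2 * y, 2 * z, 2 * w) ∈ _
      rw [mem_filter, mem_box]
      refine ⟨by omega, ?_⟩
      unfold nn
      simp only
      have h2 : Odd ((2 * x - 1) ^ 2) := by
        apply Odd.pow
        exact ⟨x - 1, by omega⟩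
      have h3 : (2 * x - 1) ^ 2 + (2 * y) ^ 2 + (2 * z) ^ 2 + (2 * w) ^ 2 = (2 * x - 1) ^ 2 + 2 * (2 * y ^ 2 + 2 * z ^ 2 + 2 * w ^ 2) := by ring
      rw [h3]
      exact h2.add_even (even_two_mul _)
    · intro q hq q' hq' hqq
      obtain ⟨x, y, z, w⟩ := q
      obtain ⟨x', y', z', w'⟩ := q'
      rw [mem_coe] at hq hq'
      simp only [mem_product, mem_Icc] at hq hq'
      simp only [Prod.mk.injEq] at hqq ⊢
      omega
  rw [card_product, card_product, card_product, Nat.card_Icc] at h1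
  have h2 : (M : ℝ) / 4 ≤ h := by
    have h3 : M ≤ 4 * h := by omega
    have h4 : (M : ℝ) ≤ 4 * h := by exact_mod_cast h3
    linarith
  have h3 : h + 1 - 1 = h := by omega
  rw [h3] at h1
  have h4 : (h : ℝ) * (h * (h * h)) ≤ (((box M).filter (fun q => Odd (nn q))).card : ℝ) := by exact_mod_cast h1
  refine le_trans ?_ h4
  have h5 : ((M : ℝ) / 4) ^ 4 ≤ (h : ℝ) ^ 4 := pow_le_pow_left₀ (by positivity) h2 4
  nlinarith

/-- **the first moment** -/
theorem first : ∃ X₀ : ℕ, ∀ X : ℕ, X₀ ≤ X → ∀ M : ℕ, 2 ≤ M → (3 * 2 ^ (2 * M) : ℝ) ≤ X / (4 * Real.log X) →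
    (M : ℝ) ^ 4 / 256 * (X / (4 * Real.log X)) ≤ ∑ p ∈ (Icc 1 (4 * M ^ 2)).filter Odd ×ˢ Icc 1 X, (Rb M p.1 p.2 : ℝ) := by
  obtain ⟨x1, h1⟩ := ch_low
  refine ⟨max x1 3, fun X hX M hM hMX => ?_⟩
  have hX3 : (3 : ℝ) ≤ X := by exact_mod_cast (le_max_right _ _).trans hX
  have hlog : 0 < Real.log X := Real.log_pos (by linarith)
  have h2 := h1 X ((le_max_left _ _).trans hX)
  -- rearrangement
  have e1 : ∑ p ∈ (Icc 1 (4 * M ^ 2)).filter Odd ×ˢ Icc 1 X, (Rb M p.1 p.2 : ℝ) =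
      ∑ q ∈ (box M).filter (fun q => Odd (nn q)), (((Icc 1 X).filter (fun a => (VV q + a).Prime)).card : ℝ) := by
    rw [sum_product]
    have e2 : ∀ n a : ℕ, (Rb M n a : ℝ) = ∑ q ∈ box M, (if nn q = n ∧ (VV q + a).Prime then (1 : ℝ) else 0) := by
      intro n a
      unfold Rb
      rw [card_filter]
      push_cast
      rfl
    rw [sum_congr rfl (fun n _ => sum_congr rfl (fun a _ => e2 n a))]
    rw [sum_congr rfl (fun n _ => sum_comm)]
    rw [sum_comm, sum_filter (s := box M)]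
    refine sum_congr rfl fun q hq => ?_
    have hn1 : nn q ∈ Icc 1 (4 * M ^ 2) := by
      obtain ⟨x, y, z, w⟩ := q
      rw [mem_box] at hq
      rw [mem_Icc]
      unfold nn
      simp only
      obtain ⟨a1, a2, a3, a4⟩ := hq
      have b1 : x ^ 2 ≤ M ^ 2 := Nat.pow_le_pow_left a1.2 2
      have b2 : y ^ 2 ≤ M ^ 2 := Nat.pow_le_pow_left a2.2 2
      have b3 : z ^ 2 ≤ M ^ 2 := Nat.pow_le_pow_left a3.2 2
      have b4 : w ^ 2 ≤ M ^ 2 := Nat.pow_le_pow_left a4.2 2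
      have b5 : 1 ≤ x ^ 2 := Nat.one_le_pow _ _ a1.1
      omega
    rw [sum_comm]
    rw [card_filter]
    push_cast
    by_cases ho : Odd (nn q)
    · rw [if_pos ho]
      refine sum_congr rfl fun a _ => ?_
      by_cases hp : (VV q + a).Prime
      · simp only [hp, and_true, if_true]
        rw [sum_ite_eq, if_pos (mem_filter.2 ⟨hn1, ho⟩)]
      · simp [hp]
    · rw [if_neg ho]
      apply sum_eq_zero
      intro a _
      apply sum_eq_zero
      intro n hn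
      rw [if_neg]
      rintro ⟨h, _⟩
      exact ho (h ▸ (mem_filter.1 hn).2)
  rw [e1]
  have h3 : ∀ q ∈ (box M).filter (fun q => Odd (nn q)), (X : ℝ) / (4 * Real.log X) ≤ (((Icc 1 X).filter (fun a => (VV q + a).Prime)).card : ℝ) := by
    intro q hq
    rw [mem_filter] at hq
    have hV : (VV q : ℝ) ≤ 2 * 2 ^ (2 * M) := by
      obtain ⟨x, y, z, w⟩ := q
      have hq1 := hq.1
      rw [mem_box] at hq1
      unfold VV
      simp only
      have e1 : 2 ^ (x + y) ≤ 2 ^ (2 * M) := Nat.pow_le_pow_right (by norm_num) (by omega)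
      have e2 : 2 ^ (z + w) ≤ 2 ^ (2 * M) := Nat.pow_le_pow_right (by norm_num) (by omega)
      have e3 : 2 ^ (x + y) + 2 ^ (z + w) ≤ 2 * 2 ^ (2 * M) := by omega
      exact_mod_cast e3
    have h4 : Nat.primeCounting X ≤ ((Icc 1 X).filter (fun a => (VV q + a).Prime)).card + VV q + 1 := by
      have h50 : Nat.primeCounting X = ((range (X + 1)).filter (fun p => p.Prime)).card := by
        rw [Nat.primeCounting, Nat.primeCounting', Nat.count_eq_card_filter_range]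
      rw [h50]
      have h5 : (range (X + 1)).filter (fun p => p.Prime) ⊆ (((Icc 1 X).filter (fun a => (VV q + a).Prime)).image (fun a => VV q + a)) ∪ range (VV q + 1) := by
        intro p hp
        rw [mem_filter, mem_range] at hp
        rw [mem_union, mem_range]
        by_cases hpV : p < VV q + 1
        · right
          exact hpV
        · left
          rw [mem_image]
          refine ⟨p - VV q, ?_, by omega⟩
          rw [mem_filter, mem_Icc]
          have e : VV q + (p - VV q) = p := by omega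
          rw [e]
          exact ⟨by omega, hp.2⟩
      have h6 := (card_le_card h5).trans (card_union_le _ _)
      have h7 := card_image_le (s := (Icc 1 X).filter (fun a => (VV q + a).Prime)) (f := fun a => VV q + a)
      rw [card_range] at h6
      omega
    have h5 : (Nat.primeCounting X : ℝ) ≤ (((Icc 1 X).filter (fun a => (VV q + a).Prime)).card : ℝ) + VV q + 1 := by exact_mod_cast h4
    have h6 : (X : ℝ) / (2 * Real.log X) = X / (4 * Real.log X) + X / (4 * Real.log X) := by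
      field_simp
      norm_num
    have h7 : (1 : ℝ) ≤ 2 ^ (2 * M) := one_le_pow₀ (by norm_num)
    linarith
  refine le_trans ?_ (sum_le_sum h3)
  rw [sum_const, nsmul_eq_mul]
  exact mul_le_mul_of_nonneg_right (odd_box M hM) (by positivity)

/-- **Cauchy-Schwarz** -/
theorem dense (P : Finset (ℕ × ℕ)) (f : ℕ × ℕ → ℝ) (hf : ∀ p ∈ P, 0 ≤ f p) (V W T : ℝ) (hV : 0 < V) (hW : 0 < W) (hT : 0 < T)
    (hc : (P.card : ℝ) ≤ T) (h1 : V ≤ ∑ p ∈ P, f p) (h2 : ∑ p ∈ P, f p ^ 2 ≤ W) :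
    V ^ 2 / (4 * W) ≤ ((P.filter (fun p => V / (2 * T) ≤ f p)).card : ℝ) := by
  obtain ⟨G, hG⟩ : ∃ G, G = P.filter (fun p => V / (2 * T) ≤ f p) := ⟨_, rfl⟩
  rw [← hG]
  have h3 : ∑ p ∈ P.filter (fun p => ¬ V / (2 * T) ≤ f p), f p ≤ V / 2 := by
    have h4 : ∑ p ∈ P.filter (fun p => ¬ V / (2 * T) ≤ f p), f p ≤ ∑ p ∈ P.filter (fun p => ¬ V / (2 * T) ≤ f p), V / (2 * T) := by
      apply sum_le_sum
      intro p hp
      exact (not_le.1 (mem_filter.1 hp).2).le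
    rw [sum_const, nsmul_eq_mul] at h4
    have h5 : ((P.filter (fun p => ¬ V / (2 * T) ≤ f p)).card : ℝ) ≤ T := le_trans (by exact_mod_cast card_filter_le _ _) hc
    refine h4.trans ((mul_le_mul_of_nonneg_right h5 (by positivity)).trans (le_of_eq ?_))
    field_simp
  have h4 : V / 2 ≤ ∑ p ∈ G, f p := by
    have h5 := sum_filter_add_sum_filter_not P (fun p => V / (2 * T) ≤ f p) f
    rw [← hG] at h5
    linarith
  have h5 := sum_mul_sq_le_sq_mul_sq G (fun _ => (1 : ℝ)) f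
  simp only [one_mul, one_pow, sum_const, nsmul_eq_mul, mul_one] at h5
  have h6 : ∑ p ∈ G, f p ^ 2 ≤ W := by
    refine le_trans ?_ h2
    rw [hG]
    exact sum_le_sum_of_subset_of_nonneg (filter_subset _ _) (fun p _ _ => sq_nonneg _)
  have h7 : (V / 2) ^ 2 ≤ (∑ p ∈ G, f p) ^ 2 := pow_le_pow_left₀ (by positivity) h4 2
  rw [div_le_iff₀ (by positivity)]
  have h8 : (G.card : ℝ) * ∑ p ∈ G, f p ^ 2 ≤ G.card * W := mul_le_mul_of_nonneg_left h6 (Nat.cast_nonneg _)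
  nlinarith

/-- the quadruples of natural numbers -/
def quads (n a : ℕ) : Set (ℕ × ℕ × ℕ × ℕ) :=
  {q | n = q.1 ^ 2 + q.2.1 ^ 2 + q.2.2.1 ^ 2 + q.2.2.2 ^ 2 ∧ (2 ^ (q.1 + q.2.1) + 2 ^ (q.2.2.1 + q.2.2.2) + a).Prime}

theorem quads_fin (n a : ℕ) : (quads n a).Finite := by
  apply Set.Finite.subset (Finset.finite_toSet (range (n + 1) ×ˢ (range (n + 1) ×ˢ (range (n + 1) ×ˢ range (n + 1)))))
  rintro ⟨x, y, z, w⟩ hq
  have h1 := hq.1
  simp only at h1
  rw [mem_coe]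
  simp only [mem_product, mem_range]
  have e : ∀ t : ℕ, t ≤ t ^ 2 := fun t => Nat.le_self_pow (by norm_num) t
  have := e x
  have := e y
  have := e z
  have := e w
  omega

theorem Rb_le (M n a : ℕ) : Rb M n a ≤ (quads n a).ncard := by
  unfold Rb
  rw [← Set.ncard_coe_finset]
  apply Set.ncard_le_ncard _ (quads_fin n a)
  rintro ⟨x, y, z, w⟩ hq
  rw [mem_coe, mem_filter] at hq
  exact ⟨hq.2.1.symm, hq.2.2⟩

/-- **the main theorem** -/
theorem main : ∃ c : ℝ, 0 < c ∧ ∃ N₀ : ℕ, ∀ N : ℕ, N₀ ≤ N → ∀ X : ℕ, (4 : ℝ) ^ √(N : ℝ) ≤ X →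
    Real.log X * Real.log N ≤ N →
    c * X ≤ (((Icc 1 X).filter (fun a => c * N ≤ (((Icc 1 N).filter (fun n => Odd n ∧
      c * (N / Real.log X) ≤ ((quads n a).ncard : ℝ))).card : ℝ))).card : ℝ) := by
  obtain ⟨x1, h1⟩ := first
  obtain ⟨C, hC, x2, h2⟩ := second
  -- the size of `X`
  have hbig : ∀ᶠ X : ℕ in atTop, 6 * √(X : ℝ) ≤ X / (4 * Real.log X) := by
    have h3 : Tendsto (fun x : ℝ => Real.log x / √x) atTop (nhds 0) := by
      have := (isLittleO_log_rpow_atTop (show (0 : ℝ) < 1 / 2 by norm_num)).tendsto_div_nhds_zero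
      simpa [Real.sqrt_eq_rpow] using this
    have h4 : ∀ᶠ x : ℝ in atTop, Real.log x / √x < 1 / 24 := h3.eventually_lt_const (by norm_num)
    filter_upwards [tendsto_natCast_atTop_atTop.eventually h4, eventually_ge_atTop 3] with X h5 h6
    have h7 : (3 : ℝ) ≤ X := by exact_mod_cast h6
    have h8 : 0 < Real.log X := Real.log_pos (by linarith)
    have h9 : 0 < √(X : ℝ) := Real.sqrt_pos.2 (by linarith)
    have h10 : √(X : ℝ) * √(X : ℝ) = X := Real.mul_self_sqrt (by linarith)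
    rw [div_lt_iff₀ h9] at h5
    rw [le_div_iff₀ (by positivity)]
    nlinarith
  obtain ⟨x3, h3⟩ := eventually_atTop.1 hbig
  obtain ⟨c₁, hc₁⟩ : ∃ c₁ : ℝ, c₁ = 1 / 1024 := ⟨_, rfl⟩
  have hc₁0 : 0 < c₁ := by rw [hc₁]; norm_num
  -- the constants
  obtain ⟨c₂, hc₂⟩ : ∃ c₂ : ℝ, c₂ = c₁ ^ 2 / (4 * C) := ⟨_, rfl⟩
  have hc₂0 : 0 < c₂ := by rw [hc₂]; positivity
  obtain ⟨c, hc⟩ : ∃ c : ℝ, c = min (c₁ / 128) (c₂ / 32) := ⟨_, rfl⟩
  have hc0 : 0 < c := by rw [hc]; exact lt_min (by positivity) (by positivity)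
  have hca : c ≤ c₁ / 128 := by rw [hc]; exact min_le_left _ _
  have hcb : c ≤ c₂ / 32 := by rw [hc]; exact min_le_right _ _
  refine ⟨c, hc0, (x1 + x2 + x3 + 4) ^ 2, fun N hN X hX hXN => ?_⟩
  have hsN : ((x1 + x2 + x3 + 4 : ℕ) : ℝ) ≤ √(N : ℝ) := by
    apply Real.le_sqrt_of_sq_le
    exact_mod_cast hN
  push_cast at hsN
  have hx1 : (0 : ℝ) ≤ x1 := Nat.cast_nonneg _
  have hx2 : (0 : ℝ) ≤ x2 := Nat.cast_nonneg _
  have hx3 : (0 : ℝ) ≤ x3 := Nat.cast_nonneg _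
  have hs4 : 4 ≤ √(N : ℝ) := by linarith
  have hN0 : (0 : ℝ) ≤ N := Nat.cast_nonneg _
  have hss : √(N : ℝ) * √(N : ℝ) = N := Real.mul_self_sqrt hN0
  have hN16 : (16 : ℝ) ≤ N := by nlinarith
  have hXs : √(N : ℝ) ≤ X := by
    refine le_trans ?_ hX
    have h4 : Real.exp (√(N : ℝ)) ≤ (4 : ℝ) ^ √(N : ℝ) := by
      rw [Real.rpow_def_of_pos (by norm_num)]
      apply Real.exp_le_exp.2
      have h5 : 1 ≤ Real.log 4 := by
        rw [show (4 : ℝ) = 2 ^ 2 by norm_num, Real.log_pow]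
        push_cast
        linarith [Real.log_two_gt_d9]
      nlinarith
    linarith [Real.add_one_le_exp (√(N : ℝ))]
  have hXx : x1 + x2 + x3 + 4 ≤ X := by
    have : ((x1 + x2 + x3 + 4 : ℕ) : ℝ) ≤ X := by
      push_cast
      linarith
    exact_mod_cast this
  have hX4 : (4 : ℝ) ≤ X := by linarith
  obtain ⟨l, hl⟩ : ∃ l, l = Real.log X := ⟨_, rfl⟩
  have hl1 : 1 ≤ l := by
    rw [hl, Real.le_log_iff_exp_le (by linarith)]
    linarith [Real.exp_one_lt_d9]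
  have hl0 : 0 < l := by linarith
  -- the size of the box
  obtain ⟨M, hM⟩ : ∃ M, M = Nat.sqrt N / 2 := ⟨_, rfl⟩
  have hsq1 : Nat.sqrt N ^ 2 ≤ N := Nat.sqrt_le' N
  have hsq2 : (Nat.sqrt N : ℝ) ≤ √(N : ℝ) := Real.nat_sqrt_le_real_sqrt
  have hsq3 : √(N : ℝ) ≤ Nat.sqrt N + 1 := Real.real_sqrt_le_nat_sqrt_succ
  have hM2 : 2 * M ≤ Nat.sqrt N := by omega
  have hM3 : Nat.sqrt N ≤ 2 * M + 1 := by omega
  have hM4 : 4 * M ^ 2 ≤ N := by
    have := Nat.pow_le_pow_left hM2 2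
    calc 4 * M ^ 2 = (2 * M) ^ 2 := by ring
      _ ≤ _ := this.trans hsq1
  have hMs : √(N : ℝ) ≤ 4 * M := by
    have h4 : (Nat.sqrt N : ℝ) ≤ 2 * M + 1 := by exact_mod_cast hM3
    linarith
  have hMs2 : 2 * (M : ℝ) ≤ √(N : ℝ) := by
    have h4 : 2 * (M : ℝ) ≤ Nat.sqrt N := by exact_mod_cast hM2
    linarith
  have hMN : (N : ℝ) ≤ 16 * M ^ 2 := by nlinarith
  have hMr : (1 : ℝ) ≤ M := by linarith
  have hMr0 : (0 : ℝ) < M := by linarith
  have hM1 : 1 ≤ M := by exact_mod_cast hMr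
  have hMge : 2 ≤ M := by
    by_contra hcon
    have : M = 1 := by omega
    have h5 : Nat.sqrt N ≤ 3 := by omega
    have h6 : (Nat.sqrt N : ℝ) ≤ 3 := by exact_mod_cast h5
    have h7 : 4 ≤ Nat.sqrt N := Nat.le_sqrt.2 (by exact_mod_cast hN16)
    omega
  -- the powers of two
  have hpow : (2 : ℝ) ^ (2 * M) ≤ √(X : ℝ) := by
    apply Real.le_sqrt_of_sq_le
    refine le_trans ?_ hX
    rw [← pow_mul, ← Real.rpow_natCast, show (4 : ℝ) = 2 ^ (2 : ℝ) by norm_num, ← Real.rpow_mul (by norm_num)]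
    apply Real.rpow_le_rpow_of_exponent_le (by norm_num)
    push_cast
    linarith
  have h3X := h3 X (by omega)
  have hsX : 0 ≤ √(X : ℝ) := Real.sqrt_nonneg _
  have hfirst := h1 X (by omega) M hMge (by linarith)
  have hsmall : (X : ℝ) / (4 * Real.log X) ≤ X := by
    rw [← hl]
    rw [div_le_iff₀ (by positivity)]
    nlinarith
  have h2MX : 2 * 2 ^ (2 * M) ≤ X := by
    have : ((2 * 2 ^ (2 * M) : ℕ) : ℝ) ≤ X := by
      push_cast
      linarith
    exact_mod_cast this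
  have hlogs : (1 + Real.log (4 * M)) * Real.log X ≤ 32 * (M : ℝ) ^ 2 := by
    have h5 : Real.log (4 * M) ≤ Real.log N := by
      apply Real.log_le_log (by positivity)
      nlinarith
    have h6 : 1 ≤ Real.log N := by
      rw [Real.le_log_iff_exp_le (by linarith)]
      linarith [Real.exp_one_lt_d9]
    rw [← hl] at hXN ⊢
    nlinarith
  have hsecond := h2 X (by omega) M hM1 h2MX hlogs (4 * M ^ 2)
  rw [← hl] at hfirst hsecond ⊢
  -- the dense set of pairs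
  obtain ⟨P, hP⟩ : ∃ P, P = (Icc 1 (4 * M ^ 2)).filter Odd ×ˢ Icc 1 X := ⟨_, rfl⟩
  rw [← hP] at hfirst
  have hX0 : (0 : ℝ) < X := by linarith
  have hPc : (P.card : ℝ) ≤ 4 * M ^ 2 * X := by
    rw [hP, card_product]
    have h5 : ((Icc 1 (4 * M ^ 2)).filter Odd).card ≤ 4 * M ^ 2 := by
      refine (card_filter_le _ _).trans ?_
      rw [Nat.card_Icc]
      omega
    rw [Nat.card_Icc]
    have h6 : ((Icc 1 (4 * M ^ 2)).filter Odd).card * (X + 1 - 1) ≤ 4 * M ^ 2 * X := Nat.mul_le_mul h5 (by omega)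
    exact_mod_cast h6
  have hsec : ∑ p ∈ P, (Rb M p.1 p.2 : ℝ) ^ 2 ≤ C * (X * (M : ℝ) ^ 6 / l ^ 2) := by
    refine le_trans ?_ hsecond
    rw [hP, sum_product]
    exact sum_le_sum_of_subset_of_nonneg (filter_subset _ _) (fun n _ _ => sum_nonneg fun a _ => sq_nonneg _)
  have hfst : c₁ * M ^ 4 * X / l ≤ ∑ p ∈ P, (Rb M p.1 p.2 : ℝ) := by
    refine le_trans (le_of_eq ?_) hfirst
    rw [hc₁]
    field_simp
    norm_num
  have hd := dense P (fun p => (Rb M p.1 p.2 : ℝ)) (fun p _ => Nat.cast_nonneg _) (c₁ * M ^ 4 * X / l) (C * (X * (M : ℝ) ^ 6 / l ^ 2))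
    (4 * M ^ 2 * X) (by positivity) (by positivity) (by positivity) hPc hfst hsec
  have e1 : (c₁ * M ^ 4 * X / l) ^ 2 / (4 * (C * (X * (M : ℝ) ^ 6 / l ^ 2))) = c₂ * M ^ 2 * X := by
    rw [hc₂]
    field_simp
  have e2 : (c₁ * M ^ 4 * X / l) / (2 * (4 * (M : ℝ) ^ 2 * X)) = c₁ * M ^ 2 / (8 * l) := by
    field_simp
    norm_num
  rw [e1, e2] at hd
  -- the count for one constant
  obtain ⟨g, hg⟩ : ∃ g : ℕ → ℕ, g = fun a => (((Icc 1 (4 * M ^ 2)).filter Odd).filter (fun n => c₁ * M ^ 2 / (8 * l) ≤ (Rb M n a : ℝ))).card := ⟨_, rfl⟩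
  have hgs : ((P.filter (fun p => c₁ * M ^ 2 / (8 * l) ≤ (Rb M p.1 p.2 : ℝ))).card : ℝ) = ∑ a ∈ Icc 1 X, (g a : ℝ) := by
    rw [card_filter, hP]
    push_cast
    rw [sum_product_right]
    refine sum_congr rfl fun a _ => ?_
    rw [hg]
    simp only
    rw [card_filter]
    push_cast
    rfl
  rw [hgs] at hd
  have hgle : ∀ a, (g a : ℝ) ≤ 4 * M ^ 2 := by
    intro a
    have h5 : g a ≤ 4 * M ^ 2 := by
      rw [hg]
      refine (card_filter_le _ _).trans ((card_filter_le _ _).trans ?_)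
      rw [Nat.card_Icc]
      omega
    exact_mod_cast h5
  obtain ⟨A, hA⟩ : ∃ A, A = (Icc 1 X).filter (fun a => c₂ / 2 * M ^ 2 ≤ (g a : ℝ)) := ⟨_, rfl⟩
  have hsplit := sum_filter_add_sum_filter_not (Icc 1 X) (fun a => c₂ / 2 * M ^ 2 ≤ (g a : ℝ)) (fun a => (g a : ℝ))
  rw [← hA] at hsplit
  have hs1 : ∑ a ∈ A, (g a : ℝ) ≤ A.card * (4 * M ^ 2) := by
    have := sum_le_sum (s := A) (fun a _ => hgle a)
    rwa [sum_const, nsmul_eq_mul] at this
  have hs2 : ∑ a ∈ (Icc 1 X).filter (fun a => ¬ c₂ / 2 * M ^ 2 ≤ (g a : ℝ)), (g a : ℝ) ≤ X * (c₂ / 2 * M ^ 2) := by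
    have h5 := sum_le_sum (s := (Icc 1 X).filter (fun a => ¬ c₂ / 2 * M ^ 2 ≤ (g a : ℝ))) (fun a ha => (not_le.1 (mem_filter.1 ha).2).le)
    rw [sum_const, nsmul_eq_mul] at h5
    refine h5.trans (mul_le_mul_of_nonneg_right ?_ (by positivity))
    have h6 : ((Icc 1 X).filter (fun a => ¬ c₂ / 2 * M ^ 2 ≤ (g a : ℝ))).card ≤ X := by
      refine (card_filter_le _ _).trans ?_
      rw [Nat.card_Icc]
      omega
    exact_mod_cast h6
  have hAc : c * X ≤ A.card := by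
    have h5 : c₂ * M ^ 2 * X ≤ A.card * (4 * M ^ 2) + X * (c₂ / 2 * M ^ 2) := by linarith
    have h6 : c₂ / 2 * X * (M : ℝ) ^ 2 ≤ A.card * 4 * (M : ℝ) ^ 2 := by linarith
    have h7 : c₂ / 2 * X ≤ A.card * 4 := le_of_mul_le_mul_right h6 (by positivity)
    have h8 : c * X ≤ c₂ / 32 * X := mul_le_mul_of_nonneg_right hcb hX0.le
    nlinarith
  refine hAc.trans ?_
  rw [Nat.cast_le]
  apply card_le_card
  intro a ha
  rw [hA, mem_filter] at ha
  rw [mem_filter]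
  refine ⟨ha.1, ?_⟩
  have h5 : (g a : ℝ) ≤ (((Icc 1 N).filter (fun n => Odd n ∧ c * (N / l) ≤ ((quads n a).ncard : ℝ))).card : ℝ) := by
    rw [Nat.cast_le, hg]
    apply card_le_card
    intro n hn
    rw [mem_filter, mem_filter, mem_Icc] at hn
    rw [mem_filter, mem_Icc]
    refine ⟨⟨hn.1.1.1, hn.1.1.2.trans hM4⟩, hn.1.2, ?_⟩
    have h6 : (Rb M n a : ℝ) ≤ ((quads n a).ncard : ℝ) := by exact_mod_cast Rb_le M n a
    refine le_trans ?_ (hn.2.trans h6)
    have h7 : c * (N / l) ≤ c₁ / 128 * (16 * M ^ 2 / l) := by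
      apply mul_le_mul hca _ (by positivity) (by positivity)
      exact div_le_div_of_nonneg_right hMN hl0.le
    refine h7.trans (le_of_eq ?_)
    field_simp
    norm_num
  refine le_trans ?_ (ha.2.trans h5)
  calc c * N ≤ c₂ / 32 * (16 * M ^ 2) := mul_le_mul hcb hMN hN0 (by positivity)
    _ = c₂ / 2 * M ^ 2 := by ring

end Run7.h870.FS
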