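import Pool.Agent.Run7.h870.FS.Ct

/-!
# Moments of the divisor sum
-/

set_option autoImplicit false
set_option linter.all false

namespace Run7.h870.FS

open Finset
open scoped Classical

theorem zeta54 : ∃ Z : ℝ, 1 ≤ Z ∧ ∀ L : ℕ, ∑ g ∈ Icc 1 L, (g : ℝ) ^ (-(5 / 4) : ℝ) ≤ Z := by
  have hs : Summable (fun g : ℕ => (g : ℝ) ^ (-(5 / 4) : ℝ)) := Real.summable_nat_rpow.2 (by norm_num)
  refine ⟨max 1 (∑' g : ℕ, (g : ℝ) ^ (-(5 / 4) : ℝ)), le_max_left _ _, fun L => le_trans ?_ (le_max_right _ _)⟩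
  exact hs.sum_le_tsum _ (fun g _ => Real.rpow_nonneg (Nat.cast_nonneg g) _)

theorem cs_step (A : Finset ℕ) (hA : ∀ g ∈ A, 1 ≤ g) (s t : ℝ) (hst : t = -(5 / 8) + s / 2) :
    (∑ g ∈ A, (g : ℝ) ^ t) ^ 2 ≤ (∑ g ∈ A, (g : ℝ) ^ (-(5 / 4) : ℝ)) * ∑ g ∈ A, (g : ℝ) ^ s := by
  have h1 := sum_mul_sq_le_sq_mul_sq A (fun g : ℕ => (g : ℝ) ^ (-(5 / 8) : ℝ)) (fun g : ℕ => (g : ℝ) ^ (s / 2))
  have e1 : ∑ g ∈ A, (g : ℝ) ^ (-(5 / 8) : ℝ) * (g : ℝ) ^ (s / 2) = ∑ g ∈ A, (g : ℝ) ^ t := by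
    refine sum_congr rfl fun g hg => ?_
    have : (0 : ℝ) < g := by exact_mod_cast hA g hg
    rw [hst, Real.rpow_add this]
  have e2 : ∑ g ∈ A, ((g : ℝ) ^ (-(5 / 8) : ℝ)) ^ 2 = ∑ g ∈ A, (g : ℝ) ^ (-(5 / 4) : ℝ) := by
    refine sum_congr rfl fun g _ => ?_
    rw [← Real.rpow_natCast, ← Real.rpow_mul (Nat.cast_nonneg g)]
    norm_num
  have e3 : ∑ g ∈ A, ((g : ℝ) ^ (s / 2)) ^ 2 = ∑ g ∈ A, (g : ℝ) ^ s := by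
    refine sum_congr rfl fun g _ => ?_
    rw [← Real.rpow_natCast, ← Real.rpow_mul (Nat.cast_nonneg g)]
    congr 1
    push_cast
    ring
  rw [e1, e2, e3] at h1
  exact h1

theorem ff_pow (Z : ℝ) (hZ1 : 1 ≤ Z) (hZ : ∀ L : ℕ, ∑ g ∈ Icc 1 L, (g : ℝ) ^ (-(5 / 4) : ℝ) ≤ Z) (L : ℕ) (hL : 1 ≤ L) (h : ℤ) :
    ff L h ^ 3 ≤ Z ^ 3 * ∑ g ∈ Icc 1 L, (if (g : ℤ) ∣ h then (g : ℝ) ^ (-(1 / 4) : ℝ) else 0) := by
  obtain ⟨A, hA⟩ : ∃ A, A = (Icc 1 L).filter (fun g : ℕ => (g : ℤ) ∣ h) := ⟨_, rfl⟩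
  have hA1 : ∀ g ∈ A, 1 ≤ g := fun g hg => by
    rw [hA, mem_filter, mem_Icc] at hg
    exact hg.1.1
  have hAZ : ∑ g ∈ A, (g : ℝ) ^ (-(5 / 4) : ℝ) ≤ Z := by
    refine le_trans ?_ (hZ L)
    rw [hA]
    exact sum_le_sum_of_subset_of_nonneg (filter_subset _ _) (fun g _ _ => Real.rpow_nonneg (Nat.cast_nonneg g) _)
  have e1 : ff L h = ∑ g ∈ A, (g : ℝ) ^ (-1 : ℝ) := by
    unfold ff
    rw [hA, sum_filter]
    refine sum_congr rfl fun g _ => ?_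
    split_ifs
    · rw [Real.rpow_neg_one, one_div]
    · rfl
  have e2 : ∑ g ∈ Icc 1 L, (if (g : ℤ) ∣ h then (g : ℝ) ^ (-(1 / 4) : ℝ) else 0) = ∑ g ∈ A, (g : ℝ) ^ (-(1 / 4) : ℝ) := by
    rw [hA, sum_filter]
  rw [e2]
  have c1 := cs_step A hA1 (-(3 / 4)) (-1) (by norm_num)
  have c2 := cs_step A hA1 (-(1 / 4)) (-(3 / 4)) (by norm_num)
  have hf1 := one_le_ff L hL h
  rw [← e1] at c1
  obtain ⟨x, hx⟩ : ∃ x, x = ∑ g ∈ A, (g : ℝ) ^ (-(3 / 4) : ℝ) := ⟨_, rfl⟩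
  obtain ⟨y, hy⟩ : ∃ y, y = ∑ g ∈ A, (g : ℝ) ^ (-(1 / 4) : ℝ) := ⟨_, rfl⟩
  obtain ⟨z, hz⟩ : ∃ z, z = ∑ g ∈ A, (g : ℝ) ^ (-(5 / 4) : ℝ) := ⟨_, rfl⟩
  rw [← hx, ← hz] at c1
  rw [← hx, ← hy, ← hz] at c2
  rw [← hz] at hAZ
  rw [← hy]
  have x0 : 0 ≤ x := by rw [hx]; exact sum_nonneg fun g _ => Real.rpow_nonneg (Nat.cast_nonneg g) _
  have y0 : 0 ≤ y := by rw [hy]; exact sum_nonneg fun g _ => Real.rpow_nonneg (Nat.cast_nonneg g) _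
  have z0 : 0 ≤ z := by rw [hz]; exact sum_nonneg fun g _ => Real.rpow_nonneg (Nat.cast_nonneg g) _
  have d1 : ff L h ^ 2 ≤ Z * x := c1.trans (mul_le_mul_of_nonneg_right hAZ x0)
  have d2 : x ^ 2 ≤ Z * y := c2.trans (mul_le_mul_of_nonneg_right hAZ y0)
  have d3 : ff L h ^ 4 ≤ Z ^ 3 * y := by
    calc ff L h ^ 4 = (ff L h ^ 2) ^ 2 := by ring
      _ ≤ (Z * x) ^ 2 := pow_le_pow_left₀ (by positivity) d1 2
      _ = Z ^ 2 * x ^ 2 := by ring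
      _ ≤ Z ^ 2 * (Z * y) := mul_le_mul_of_nonneg_left d2 (by positivity)
      _ = Z ^ 3 * y := by ring
  exact (pow_le_pow_right₀ hf1 (by norm_num)).trans d3

/-- **the third moment** -/
theorem ff_moment : ∃ C : ℝ, 0 < C ∧ ∀ L H : ℕ, 1 ≤ L → L ≤ H → ∑ h ∈ Icc (-(H : ℤ)) H, ff L h ^ 3 ≤ C * H := by
  obtain ⟨Z, hZ1, hZ⟩ := zeta54
  refine ⟨3 * Z ^ 4, by positivity, fun L H hL hLH => ?_⟩
  refine (sum_le_sum fun h _ => ff_pow Z hZ1 hZ L hL h).trans ?_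
  rw [← mul_sum, sum_comm]
  have h1 : ∀ g ∈ Icc 1 L, ∑ h ∈ Icc (-(H : ℤ)) H, (if (g : ℤ) ∣ h then (g : ℝ) ^ (-(1 / 4) : ℝ) else 0) ≤
      3 * H * (g : ℝ) ^ (-(5 / 4) : ℝ) := by
    intro g hg
    rw [mem_Icc] at hg
    have hg0 : (0 : ℝ) < g := by exact_mod_cast hg.1
    rw [← sum_filter, sum_const, nsmul_eq_mul]
    have h2 := mult_le H g hg.1 (hg.2.trans hLH) ((Icc (-(H : ℤ)) H).filter fun a => (g : ℤ) ∣ a) (by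
      intro x hx
      rw [mem_filter, mem_Icc] at hx
      exact abs_le.2 hx.1) (fun x hx => (mem_filter.1 hx).2)
    refine (mul_le_mul_of_nonneg_right h2 (Real.rpow_nonneg hg0.le _)).trans (le_of_eq ?_)
    have e1 : (g : ℝ) ^ (-(5 / 4) : ℝ) = (g : ℝ) ^ (-(1 / 4) : ℝ) / g := by
      rw [show (-(5 / 4) : ℝ) = -(1 / 4) - 1 by norm_num, Real.rpow_sub_one hg0.ne']
    rw [e1]
    ring
  refine (mul_le_mul_of_nonneg_left (sum_le_sum h1) (by positivity)).trans ?_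
  rw [← mul_sum]
  have h3 := hZ L
  calc Z ^ 3 * (3 * H * ∑ g ∈ Icc 1 L, (g : ℝ) ^ (-(5 / 4) : ℝ)) ≤ Z ^ 3 * (3 * H * Z) := by
        apply mul_le_mul_of_nonneg_left _ (by positivity)
        exact mul_le_mul_of_nonneg_left h3 (by positivity)
    _ = 3 * Z ^ 4 * H := by ring

end Run7.h870.FS
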