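import Pool.Agent.Run7.h870.FS.Ky
import Pool.Agent.Run7.h870.PQ.Sm

/-!
# The two moments of the number of quadruples
-/

set_option autoImplicit false
set_option linter.all false

namespace Run7.h870.FS

open Finset Filter
open Pool.Agent.H646 (rat)
open scoped Classical

/-- the number of quadruples for `n` with the constant `a` -/
noncomputable def Rb (M n a : ℕ) : ℕ := ((box M).filter (fun q => nn q = n ∧ (VV q + a).Prime)).card

theorem ch_up : ∃ X₀ : ℕ, ∀ X : ℕ, X₀ ≤ X → (Nat.primeCounting X : ℝ) ≤ 3 * X / Real.log X := by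
  have h1 := (Chebyshev.eventually_primeCounting_le (ε := 1) one_pos)
  have h2 := tendsto_natCast_atTop_atTop.eventually h1
  obtain ⟨X₀, h3⟩ := eventually_atTop.1 h2
  refine ⟨max X₀ 2, fun X hX => ?_⟩
  have h4 := h3 X ((le_max_left _ _).trans hX)
  rw [Nat.floor_natCast] at h4
  refine h4.trans ?_
  have h5 : (2 : ℝ) ≤ X := by exact_mod_cast (le_max_right _ _).trans hX
  have h6 : 0 < Real.log X := Real.log_pos (by linarith)
  have h7 : Real.log 4 + 1 ≤ 3 := by
    have : Real.log 4 = 2 * Real.log 2 := by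
      rw [show (4 : ℝ) = 2 ^ 2 by norm_num, Real.log_pow]
      push_cast
      ring
    rw [this]
    linarith [Real.log_two_lt_d9]
  apply div_le_div_of_nonneg_right _ h6.le
  exact mul_le_mul_of_nonneg_right h7 (by linarith)

theorem ch_low : ∃ X₀ : ℕ, ∀ X : ℕ, X₀ ≤ X → (X : ℝ) / (2 * Real.log X) ≤ (Nat.primeCounting X : ℝ) := by
  have h1 : Tendsto (fun x : ℝ => Real.log x / x) atTop (nhds 0) := by
    have := Real.isLittleO_log_id_atTop.tendsto_div_nhds_zero
    simpa using this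
  have h2 : ∀ᶠ x : ℝ in atTop, Real.log x / x < 1 / 20 := h1.eventually_lt_const (by norm_num)
  have h3 : ∀ᶠ X : ℕ in atTop, Real.log ((X : ℝ) + 1) / ((X : ℝ) + 1) < 1 / 20 := by
    have h4 : Tendsto (fun X : ℕ => (X : ℝ) + 1) atTop atTop := tendsto_atTop_add_const_right _ _ tendsto_natCast_atTop_atTop
    exact h4.eventually h2
  obtain ⟨X₀, h4⟩ := eventually_atTop.1 h3
  refine ⟨max X₀ 3, fun X hX => ?_⟩
  have h5 := h4 X ((le_max_left _ _).trans hX)
  have h6 : (3 : ℝ) ≤ X := by exact_mod_cast (le_max_right _ _).trans hX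
  have h7 : 0 < Real.log X := Real.log_pos (by linarith)
  refine le_trans ?_ (Chebyshev.pi_ge X)
  rw [div_lt_iff₀ (by linarith)] at h5
  rw [div_le_div_iff₀ (by positivity) h7]
  have h8 := Real.log_two_gt_d9
  have h9 : (X : ℝ) / 2 ≤ X * Real.log 2 - Real.log (X + 1) := by nlinarith
  calc (X : ℝ) * Real.log X = X / 2 * (2 * Real.log X) := by ring
    _ ≤ (X * Real.log 2 - Real.log (X + 1)) * (2 * Real.log X) := mul_le_mul_of_nonneg_right h9 (by positivity)

theorem Rb_sq (M N X : ℕ) : ∑ n ∈ Icc 1 N, ∑ a ∈ Icc 1 X, (Rb M n a : ℝ) ^ 2 ≤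
    ∑ r ∈ PP M, (((Icc 1 X).filter (fun a => (VV r.1 + a).Prime ∧ (VV r.2 + a).Prime)).card : ℝ) := by
  have e1 : ∀ n a : ℕ, (Rb M n a : ℝ) ^ 2 = ∑ r ∈ box M ×ˢ box M, (if (nn r.1 = n ∧ nn r.2 = n) ∧ ((VV r.1 + a).Prime ∧ (VV r.2 + a).Prime) then (1 : ℝ) else 0) := by
    intro n a
    unfold Rb
    rw [sq, card_filter]
    push_cast
    rw [sum_mul_sum, sum_product]
    refine sum_congr rfl fun q _ => sum_congr rfl fun q' _ => ?_
    split_ifs <;> simp_all
  have e2 : ∑ n ∈ Icc 1 N, ∑ a ∈ Icc 1 X, (Rb M n a : ℝ) ^ 2 = ∑ r ∈ box M ×ˢ box M, ∑ a ∈ Icc 1 X, ∑ n ∈ Icc 1 N,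
      (if (nn r.1 = n ∧ nn r.2 = n) ∧ ((VV r.1 + a).Prime ∧ (VV r.2 + a).Prime) then (1 : ℝ) else 0) := by
    rw [sum_congr rfl (fun n _ => sum_congr rfl (fun a _ => e1 n a))]
    rw [sum_comm]
    rw [sum_congr rfl (fun a _ => sum_comm)]
    rw [sum_comm]
  rw [e2]
  unfold PP
  rw [sum_filter]
  apply sum_le_sum
  intro r _
  split_ifs with hr
  · rw [card_filter]
    push_cast
    apply sum_le_sum
    intro a _
    by_cases hp : (VV r.1 + a).Prime ∧ (VV r.2 + a).Prime
    · simp only [hp, and_self, and_true, if_true]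
      rw [← hr]
      simp only [and_self]
      rw [sum_ite_eq]
      split_ifs <;> norm_num
    · rw [if_neg hp]
      apply le_of_eq
      apply sum_eq_zero
      intro n _
      rw [if_neg (fun h => hp h.2)]
  · apply le_of_eq
    apply sum_eq_zero
    intro a _
    apply sum_eq_zero
    intro n _
    rw [if_neg (fun h => hr (h.1.1.trans h.1.2.symm))]

/-- **the second moment** -/
theorem second : ∃ C : ℝ, 0 < C ∧ ∃ X₀ : ℕ, ∀ X : ℕ, X₀ ≤ X → ∀ M : ℕ, 1 ≤ M → 2 * 2 ^ (2 * M) ≤ X →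
    (1 + Real.log (4 * M)) * Real.log X ≤ 32 * (M : ℝ) ^ 2 → ∀ N : ℕ,
    ∑ n ∈ Icc 1 N, ∑ a ∈ Icc 1 X, (Rb M n a : ℝ) ^ 2 ≤ C * (X * (M : ℝ) ^ 6 / Real.log X ^ 2) := by
  obtain ⟨C2, hC2, B, x2, h2⟩ := Run7.h870.PQ.up_inj 2 le_rfl
  obtain ⟨C, hC, hp⟩ := pairs_le B
  obtain ⟨x1, h1⟩ := ch_up
  refine ⟨2 * C2 * C + 63 * 16 * 18 * 6 * 32, by positivity, max (max x1 x2) 3, fun X hX M hM hMX hl N => ?_⟩
  have hX3 : 3 ≤ X := (le_max_right _ _).trans hX
  have hX3' : (3 : ℝ) ≤ X := by exact_mod_cast hX3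
  have hX1 : x1 ≤ X := (le_max_left _ _).trans ((le_max_left _ _).trans hX)
  have hX2 : x2 ≤ X := (le_max_right _ _).trans ((le_max_left _ _).trans hX)
  have hlog : 0 < Real.log X := Real.log_pos (by linarith)
  have hM0 : (0 : ℝ) < M := by exact_mod_cast hM
  refine (Rb_sq M N X).trans ?_
  have hV : ∀ q ∈ box M, VV q ≤ X := by
    intro q hq
    obtain ⟨x, y, z, w⟩ := q
    rw [mem_box] at hq
    unfold VV
    simp only
    have e1 : 2 ^ (x + y) ≤ 2 ^ (2 * M) := Nat.pow_le_pow_right (by norm_num) (by omega)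
    have e2 : 2 ^ (z + w) ≤ 2 ^ (2 * M) := Nat.pow_le_pow_right (by norm_num) (by omega)
    omega
  have hcc : ∀ r ∈ PP M, (((Icc 1 X).filter (fun a => (VV r.1 + a).Prime ∧ (VV r.2 + a).Prime)).card : ℝ) ≤
      2 * C2 * X / Real.log X ^ 2 * GG B (key r) + (if DD (key r) = 0 then 6 * X / Real.log X else 0) := by
    intro r hr
    have hr' : r.1 ∈ box M ∧ r.2 ∈ box M := by
      unfold PP at hr
      rw [mem_filter, mem_product] at hr
      exact hr.1
    have hD : DD (key r) = (VV r.1 : ℤ) - VV r.2 := by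
      unfold DD key VV
      push_cast
      ring
    have hg0 := GG_nonneg B (key r)
    split_ifs with hd
    · have h3 : ((Icc 1 X).filter (fun a => (VV r.1 + a).Prime ∧ (VV r.2 + a).Prime)).card ≤ Nat.primeCounting (2 * X) := by
        rw [Nat.primeCounting, Nat.primeCounting', Nat.count_eq_card_filter_range]
        apply card_le_card_of_injOn (fun a => VV r.1 + a)
        · intro a ha
          rw [mem_coe, mem_filter, mem_Icc] at ha
          rw [mem_coe, mem_filter, mem_range]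
          have h9 := hV r.1 hr'.1
          refine ⟨?_, ha.2.1⟩
          show VV r.1 + a < 2 * X + 1
          omega
        · intro a _ b _ hab
          simp only at hab
          omega
      have h4 := h1 (2 * X) (by omega)
      push_cast at h4
      have h5 : 3 * (2 * (X : ℝ)) / Real.log (2 * X) ≤ 6 * X / Real.log X := by
        have h6 : Real.log X ≤ Real.log (2 * X) := Real.log_le_log (by linarith) (by linarith)
        rw [show 3 * (2 * (X : ℝ)) = 6 * X by ring]
        exact div_le_div_of_nonneg_left (by linarith) hlog h6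
      have h6 : (((Icc 1 X).filter (fun a => (VV r.1 + a).Prime ∧ (VV r.2 + a).Prime)).card : ℝ) ≤ (Nat.primeCounting (2 * X) : ℝ) := by
        exact_mod_cast h3
      have h7 : 0 ≤ 2 * C2 * X / Real.log X ^ 2 * GG B (key r) := by positivity
      linarith
    · have hne : (VV r.1 : ℤ) ≠ VV r.2 := fun h => hd (by rw [hD, h, sub_self])
      have h3 := h2 X hX2 ![(VV r.1 : ℤ), (VV r.2 : ℤ)] (Run7.h870.PQ.inj2 hne) (by
        intro j
        fin_cases j
        · show |(VV r.1 : ℤ)| ≤ X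
          rw [abs_of_nonneg (Int.natCast_nonneg _)]
          exact_mod_cast hV r.1 hr'.1
        · show |(VV r.2 : ℤ)| ≤ X
          rw [abs_of_nonneg (Int.natCast_nonneg _)]
          exact_mod_cast hV r.2 hr'.2)
      rw [Run7.h870.PQ.ps2] at h3
      have h4 : ((Icc 1 X).filter (fun a => (VV r.1 + a).Prime ∧ (VV r.2 + a).Prime)).card ≤
          ((Icc 1 X).filter fun a : ℕ => ∀ j, ((a : ℤ) + ![(VV r.1 : ℤ), (VV r.2 : ℤ)] j).toNat.Prime).card := by
        apply card_le_card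
        intro a ha
        rw [mem_filter] at ha ⊢
        refine ⟨ha.1, fun j => ?_⟩
        fin_cases j
        · show ((a : ℤ) + (VV r.1 : ℤ)).toNat.Prime
          have e : ((a : ℤ) + (VV r.1 : ℤ)).toNat = VV r.1 + a := by omega
          rw [e]
          exact ha.2.1
        · show ((a : ℤ) + (VV r.2 : ℤ)).toNat.Prime
          have e : ((a : ℤ) + (VV r.2 : ℤ)).toNat = VV r.2 + a := by omega
          rw [e]
          exact ha.2.2
      have h5 : (((Icc 1 X).filter (fun a => (VV r.1 + a).Prime ∧ (VV r.2 + a).Prime)).card : ℝ) ≤ _ := (Nat.cast_le (α := ℝ).2 h4).trans h3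
      refine h5.trans (le_of_eq ?_)
      rw [add_zero]
      have h6 : Run7.h870.PQ.R B (VV r.1 : ℤ) (VV r.2 : ℤ) = GG B (key r) := by
        rw [Run7.h870.PQ.R_comm]
        unfold Run7.h870.PQ.R GG
        rw [if_neg hd, hD]
      rw [h6]
      ring
  refine (sum_le_sum hcc).trans ?_
  rw [sum_add_distrib, ← mul_sum, ← sum_filter, sum_const, nsmul_eq_mul]
  have h3 := hp M hM
  have h4 := zero_le M hM
  have h5 : 2 * C2 * X / Real.log X ^ 2 * ∑ r ∈ PP M, GG B (key r) ≤ 2 * C2 * X / Real.log X ^ 2 * (C * M ^ 6) :=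
    mul_le_mul_of_nonneg_left h3 (by positivity)
  have h6 : (((PP M).filter (fun r => DD (key r) = 0)).card : ℝ) * (6 * X / Real.log X) ≤ (63 * 16 * 18 * M ^ 4 * (1 + Real.log (4 * M))) * (6 * X / Real.log X) :=
    mul_le_mul_of_nonneg_right h4 (by positivity)
  have h7 : (63 * 16 * 18 * (M : ℝ) ^ 4 * (1 + Real.log (4 * M))) * (6 * X / Real.log X) =
      63 * 16 * 18 * 6 * (X * (M : ℝ) ^ 4 / Real.log X ^ 2) * ((1 + Real.log (4 * M)) * Real.log X) := by
    field_simp
  have h8 : 63 * 16 * 18 * 6 * (X * (M : ℝ) ^ 4 / Real.log X ^ 2) * ((1 + Real.log (4 * M)) * Real.log X) ≤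
      63 * 16 * 18 * 6 * (X * (M : ℝ) ^ 4 / Real.log X ^ 2) * (32 * (M : ℝ) ^ 2) := mul_le_mul_of_nonneg_left hl (by positivity)
  calc _ ≤ 2 * C2 * X / Real.log X ^ 2 * (C * M ^ 6) + 63 * 16 * 18 * 6 * (X * (M : ℝ) ^ 4 / Real.log X ^ 2) * (32 * (M : ℝ) ^ 2) := by
        linarith
    _ = _ := by ring

end Run7.h870.FS
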